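import Pool.Agent.Lib.ND.Spec

set_option autoImplicit false

/-! MP_00e23e_nt, Lib/ND, module BfiD: the bilinear theorem of project ND (adapted from Lib/NMB/BfiM). -/

namespace Pool.Agent.Lib.ND

open Finset Pool.Agent.Lib.EH3 Pool.Agent.Lib.TB Pool.Agent.Results.MP_00e23e_nt Pool.Agent.Lib.MI
open Pool.Agent.Lib.MX (Bd Mz Bd_nonneg Bd_mono rp_le rn_le log_le_T Tau_x)

/-- the divisors r and ρ of one modulus q -/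
private lemma BfiD_div (h : NLB.BorNStmt) {q m v t : ℕ} {x κ l α β Z Z2 z : ℝ} (hx : 1 ≤ x) (hsq : Squarefree q) (hm : m ∣ q)
    (hv : v ∣ q / m) (ht : t ∣ q) (hmv : (m : ℝ) * v ≤ Z) (hmv2 : Z < (m : ℝ) * v * x ^ α) (htx : (t : ℝ) ≤ x ^ β)
    (hZ2 : Z2 = Z * x ^ β) (hml : (m : ℝ) ≤ x ^ (l + κ)) (hlr : x ^ l * x ^ (α + β) ≤ Z2)
    (hsm : ∀ p : ℕ, p.Prime → p ∣ q / m → (p : ℝ) ≤ x ^ κ)
    (hz : ∀ p : ℕ, p.Prime → p ∣ q / t → z < p) :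
    ∃ r ρ : ℕ, m ∣ ρ ∧ t ∣ r ∧ r ∣ q ∧ (r : ℝ) ≤ Z2 ∧ Z2 < r * x ^ (α + β) ∧ (∀ p : ℕ, p.Prime → p ∣ q / r → z < p) ∧
      ρ ∣ r ∧ (ρ : ℝ) ≤ x ^ (l + κ) ∧ x ^ l < ρ ∧ (∀ p : ℕ, p.Prime → p ∣ r / ρ → (p : ℝ) ≤ x ^ κ) := by
  have hx0 : 0 < x := by linarith
  have hq0 : 0 < q := Nat.pos_of_ne_zero hsq.ne_zero
  have hm0 : 0 < m := Nat.pos_of_dvd_of_pos hm hq0
  have ht0 : 0 < t := Nat.pos_of_dvd_of_pos ht hq0
  have hmvq : m * v ∣ q := by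
    have := Nat.mul_dvd_mul_left m hv
    rwa [Nat.mul_div_cancel' hm] at this
  have hmv0 : 0 < m * v := Nat.pos_of_dvd_of_pos hmvq hq0
  have hxβ : 0 < x ^ β := Real.rpow_pos_of_pos hx0 _
  have hxα : 0 < x ^ α := Real.rpow_pos_of_pos hx0 _
  have hxk : 0 < x ^ κ := Real.rpow_pos_of_pos hx0 _
  have hZ0 : 0 ≤ Z := le_trans (by positivity) hmv
  have r2 : Nat.lcm (m * v) t ∣ q := Nat.lcm_dvd hmvq ht
  have hmvr : m * v ∣ Nat.lcm (m * v) t := Nat.dvd_lcm_left _ _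
  have hmr : m ∣ Nat.lcm (m * v) t := (Nat.dvd_mul_right m v).trans hmvr
  have htr : t ∣ Nat.lcm (m * v) t := Nat.dvd_lcm_right _ _
  have hr0 : 0 < Nat.lcm (m * v) t := Nat.pos_of_dvd_of_pos r2 hq0
  obtain ⟨r, hr⟩ : ∃ r : ℕ, r = Nat.lcm (m * v) t := ⟨_, rfl⟩
  rw [← hr] at r2 hmvr hmr htr hr0
  have r3 : (r : ℝ) ≤ Z2 := by
    have e1 : r ≤ (m * v) * t := by
      rw [hr]
      exact Nat.le_of_dvd (Nat.mul_pos hmv0 ht0) (Nat.lcm_dvd_mul _ _)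
    have e2 : (r : ℝ) ≤ ((m : ℝ) * v) * t := by exact_mod_cast e1
    rw [hZ2]
    exact e2.trans (mul_le_mul hmv htx (Nat.cast_nonneg _) hZ0)
  have r4 : Z2 < r * x ^ (α + β) := by
    have e1 : ((m : ℝ) * v) ≤ r := by
      have : m * v ≤ r := Nat.le_of_dvd hr0 hmvr
      exact_mod_cast this
    calc Z2 = Z * x ^ β := hZ2
      _ < ((m : ℝ) * v * x ^ α) * x ^ β := mul_lt_mul_of_pos_right hmv2 hxβ
      _ ≤ ((r : ℝ) * x ^ α) * x ^ β := by gcongr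
      _ = r * x ^ (α + β) := by rw [Real.rpow_add hx0]; ring
  have hsmr : ∀ p : ℕ, p.Prime → p ∣ r / m → (p : ℝ) ≤ x ^ κ := by
    intro p hp hpd
    exact hsm p hp (hpd.trans (Nat.div_dvd_div hmr r2))
  obtain ⟨ρ, s1, s2, s3, s4, -⟩ := h r m (x ^ (l + κ)) (x ^ κ) (hsq.squarefree_of_dvd r2) hmr hml hsmr
  have hlr' : x ^ l < (r : ℝ) :=
    lt_of_mul_lt_mul_right (lt_of_le_of_lt hlr r4) (Real.rpow_nonneg hx0.le _)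
  refine ⟨r, ρ, s1, htr, r2, r3, r4, ?_, s2, s3, ?_, ?_⟩
  · intro p hp hpd
    exact hz p hp (hpd.trans (Nat.div_dvd_div_left r2 htr))
  · rcases s4 with s4 | s4
    · rw [s4]
      exact hlr'
    · refine lt_of_mul_lt_mul_right ?_ hxk.le
      calc x ^ l * x ^ κ = x ^ (l + κ) := (Real.rpow_add hx0 _ _).symm
        _ < (ρ : ℝ) * x ^ κ := s4
  · intro p hp hpd
    exact hsmr p hp (hpd.trans (Nat.div_dvd_div_left s2 s1))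

theorem tBfiD (h1 : BdsDStmt) (h2 : NLB.BorNStmt) (h3 : NMB.BgeMStmt) : BfiDStmt := by
  classical
  intro μ κ ν θ l w δ ε hP hν6 hθ5 hB
  obtain ⟨⟨hμ, hκ, hw, hl, hν⟩, ⟨hθ1, hθ2, hθ3⟩, ⟨hδ, hδ1⟩, hε, hp1⟩ := id hP
  obtain ⟨ηd, Cd, xd, Ad, hηd, hCd, hds⟩ := h1 μ κ ν θ l w δ ε hP hB
  obtain ⟨Cg, xg, Ag, hCg, hge⟩ := h3 δ ε ν hδ (by linarith) hε (by linarith) (by linarith)
  refine ⟨min ηd (ε / 2), Cd + Cg, max (max xd xg) 2, max Ad Ag, lt_min hηd (by linarith), by positivity, ?_⟩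
  intro x T z a M N f g F t hx hT hz hzx hN hN2 hMN1 hMN2 hf hg hF hΦ
  have hxd : xd ≤ x := ((le_max_left _ _).trans (le_max_left _ _)).trans hx
  have hxg : xg ≤ x := ((le_max_right _ _).trans (le_max_left _ _)).trans hx
  have hx2 : 2 ≤ x := (le_max_right _ _).trans hx
  have hx1 : 1 ≤ x := by linarith
  have hx1' : 1 < x := by linarith
  have hx0 : 0 < x := by linarith
  have hT1 : 1 ≤ T := hT.1
  have hpow : ∀ a b : ℝ, a ≤ b → x ^ a ≤ x ^ b := fun a b hab => Real.rpow_le_rpow_of_exponent_le hx1 hab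
  have hNpos : (0 : ℝ) < N := lt_of_lt_of_le (Real.rpow_pos_of_pos hx0 _) hN
  have hNM : N ≤ M := by
    have e1 : (N : ℝ) * N ≤ (M : ℝ) * N := by
      calc (N : ℝ) * N ≤ x ^ (θ + ε) * x ^ (θ + ε) :=
            mul_le_mul hN2 hN2 hNpos.le (Real.rpow_nonneg hx0.le _)
        _ = x ^ (θ + ε + (θ + ε)) := (Real.rpow_add hx0 _ _).symm
        _ ≤ x ^ (1 - ε) := hpow _ _ (by linarith)
        _ ≤ (M : ℝ) * N := hMN1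
    have e2 : (N : ℝ) ≤ M := le_of_mul_le_mul_right e1 hNpos
    exact_mod_cast e2
  have hΦ' : ∀ q ∈ F, x ^ (1 / 2 - ε / 2) < (q : ℝ) → ∃ m : ℕ, m ∣ q ∧ (m : ℝ) ≤ x ^ μ ∧
      (∀ p : ℕ, p.Prime → p ∣ q / m → (p : ℝ) ≤ x ^ κ) ∧
      ∀ Z : ℝ, (m : ℝ) ≤ Z → x ^ (1 / 6 + w / 2) ≤ Z → Z ≤ x ^ (2 / 5 - w / 2) →
        ∃ v : ℕ, v ∣ q / m ∧ (m : ℝ) * v ≤ Z ∧ Z < (m : ℝ) * v * x ^ (ε / 2) := hΦ
  obtain ⟨Z, hZ⟩ : ∃ Z : ℝ, Z = N * x ^ (-(10 * ε + ε / 16)) := ⟨_, rfl⟩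
  obtain ⟨Z2, hZ2⟩ : ∃ Z : ℝ, Z = N * x ^ (-(10 * ε)) := ⟨_, rfl⟩
  have hZZ2 : Z2 = Z * x ^ (ε / 16) := by
    rw [hZ, hZ2, mul_assoc, ← Real.rpow_add hx0]
    congr 2
    ring
  have hZlow : x ^ (ν - 12 * ε) ≤ Z := by
    rw [hZ]
    calc x ^ (ν - 12 * ε) ≤ x ^ (ν - ε + -(10 * ε + ε / 16)) := hpow _ _ (by linarith)
      _ = x ^ (ν - ε) * x ^ (-(10 * ε + ε / 16)) := Real.rpow_add hx0 _ _
      _ ≤ N * x ^ (-(10 * ε + ε / 16)) := mul_le_mul_of_nonneg_right hN (Real.rpow_nonneg hx0.le _)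
  have hZup : Z ≤ x ^ θ := by
    rw [hZ]
    calc (N : ℝ) * x ^ (-(10 * ε + ε / 16)) ≤ x ^ (θ + ε) * x ^ (-(10 * ε + ε / 16)) :=
          mul_le_mul_of_nonneg_right hN2 (Real.rpow_nonneg hx0.le _)
      _ = x ^ (θ + ε + -(10 * ε + ε / 16)) := (Real.rpow_add hx0 _ _).symm
      _ ≤ x ^ θ := hpow _ _ (by linarith)
  have hZ2q : Z2 ≤ x ^ (1 / 2 - ε / 2) := by
    rw [hZZ2]
    calc Z * x ^ (ε / 16) ≤ x ^ θ * x ^ (ε / 16) := mul_le_mul_of_nonneg_right hZup (Real.rpow_nonneg hx0.le _)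
      _ = x ^ (θ + ε / 16) := (Real.rpow_add hx0 _ _).symm
      _ ≤ x ^ (1 / 2 - ε / 2) := hpow _ _ (by linarith)
  have hlr : x ^ l * x ^ (ε / 2 + ε / 16) ≤ Z2 := by
    rw [hZZ2]
    calc x ^ l * x ^ (ε / 2 + ε / 16) = x ^ (l + (ε / 2 + ε / 16)) := (Real.rpow_add hx0 _ _).symm
      _ ≤ x ^ (ν - 12 * ε + ε / 16) := hpow _ _ (by linarith)
      _ = x ^ (ν - 12 * ε) * x ^ (ε / 16) := Real.rpow_add hx0 _ _
      _ ≤ Z * x ^ (ε / 16) := mul_le_mul_of_nonneg_right hZlow (Real.rpow_nonneg hx0.le _)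
  have hex : ∀ q : ℕ, ∃ m r ρ : ℕ, q ∈ F → x ^ (1 / 2 - ε / 2) < (q : ℝ) →
      ((m : ℝ) ≤ x ^ μ ∧ (∀ p : ℕ, p.Prime → p ∣ q / m → (p : ℝ) ≤ x ^ κ) ∧
      m ∣ ρ ∧ t q ∣ r ∧ r ∣ q ∧ (r : ℝ) ≤ Z2 ∧ Z2 < r * x ^ (ε / 2 + ε / 16) ∧ (∀ p : ℕ, p.Prime → p ∣ q / r → z < p) ∧
      ρ ∣ r ∧ (ρ : ℝ) ≤ x ^ (l + κ) ∧ x ^ l < ρ ∧ (∀ p : ℕ, p.Prime → p ∣ r / ρ → (p : ℝ) ≤ x ^ κ)) := by
    intro q
    by_cases hq : q ∈ F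
    · by_cases hq2 : x ^ (1 / 2 - ε / 2) < (q : ℝ)
      · obtain ⟨⟨e1, e2, e3, e4, e5⟩, e6⟩ := hF q hq
        obtain ⟨m, hm1, hm2, hm3, hm4⟩ := hΦ' q hq hq2
        have hmZ : (m : ℝ) ≤ Z := hm2.trans ((hpow _ _ (by linarith)).trans hZlow)
        obtain ⟨v, hv1, hv2, hv3⟩ := hm4 Z hmZ ((hpow _ _ (by linarith)).trans hZlow)
          (hZup.trans (hpow _ _ (by linarith)))
        obtain ⟨r, ρ, hr⟩ := BfiD_div (l := l) h2 hx1 e1 hm1 hv1 e2 hv2 hv3 e4 hZZ2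
          (hm2.trans (hpow _ _ (by linarith))) hlr hm3 e5
        exact ⟨m, r, ρ, fun _ _ => ⟨hm2, hm3, hr⟩⟩
      · exact ⟨0, 0, 0, fun _ h => absurd h hq2⟩
    · exact ⟨0, 0, 0, fun h => absurd h hq⟩
  choose m r ρ hr using hex
  obtain ⟨F2, hF2⟩ : ∃ F2 : Finset ℕ, F2 = F.filter (fun q : ℕ => x ^ (1 / 2 - ε / 2) < (q : ℝ)) := ⟨_, rfl⟩
  have hF2m : ∀ q ∈ F2, q ∈ F ∧ x ^ (1 / 2 - ε / 2) < (q : ℝ) := by
    intro q hq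
    rw [hF2, mem_filter] at hq
    exact hq
  have hge' := hge (ε / 16) x T z a M N f g F t (fun q => r q / t q) hxg hT hz hzx hNM hN hMN1 hMN2 hf hg hF (by
    intro q hq hq2
    obtain ⟨j1, j2, i1, i2, i3, i4, i5, i6⟩ := hr q hq hq2
    obtain ⟨⟨e1, e2, e3, e4, e5⟩, e6⟩ := hF q hq
    refine ⟨Nat.div_dvd_div i2 i3, ?_⟩
    rw [Nat.mul_div_cancel' i2]
    exact i4.trans hZ2q)
  have hds' := hds x T z a M N f g F2 r ρ hxd hT hz hzx hN hN2 hMN1 hMN2 hf hg (by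
    intro q hq
    obtain ⟨hq1, hq2⟩ := hF2m q hq
    obtain ⟨j1, j2, i1, i2, i3, i4, i5, i6, i7, i8, i9, i10⟩ := hr q hq1 hq2
    obtain ⟨⟨e1, e2, e3, e4, e5⟩, e6⟩ := hF q hq1
    rw [hZ2] at i4 i5
    refine ⟨⟨e1, e6, e3, hq2⟩, ⟨i3, i4, ?_, i6⟩, ⟨i7, i9, i8⟩, ⟨m q, i1, j1, ?_⟩, ?_, i10⟩
    · refine lt_of_lt_of_le i5 ?_
      exact mul_le_mul_of_nonneg_left (hpow _ _ (by linarith)) (Nat.cast_nonneg _)
    · intro p hp hpq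
      exact j2 p hp (hpq.trans (Nat.div_dvd_div i1 (i7.trans i3)))
    · intro p hp hpq
      exact j2 p hp (hpq.trans (Nat.div_dvd_div_left i3 (i1.trans i7))))
  have hsum : ∑ q ∈ F.filter (fun q : ℕ => x ^ (1 / 2 - ε / 2) < (q : ℝ)), ‖∑ m ∈ Ioc M (2 * M), ∑ n ∈ Ioc N (2 * N),
      f m * g n * Dl (a q) (t q * (r q / t q)) (q / (t q * (r q / t q))) (m * n)‖ =
      ∑ q ∈ F2, ‖∑ m ∈ Ioc M (2 * M), ∑ n ∈ Ioc N (2 * N), f m * g n * Dl (a q) (r q) (q / r q) (m * n)‖ := by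
    rw [← hF2]
    refine sum_congr rfl fun q hq => ?_
    obtain ⟨hq1, hq2⟩ := hF2m q hq
    rw [Nat.mul_div_cancel' (hr q hq1 hq2).2.2.2.1]
  have hge2 := hge'
  rw [hsum] at hge2
  have c1 : MX.Bd Cd Ad ηd x T z ≤ MX.Bd Cd (max Ad Ag) (min ηd (ε / 2)) x T z :=
    Bd_mono hCd le_rfl (le_max_left _ _) (min_le_left _ _) hT1 hx0.le hz
  have c2 : MX.Bd Cg Ag (ε / 2) x T z ≤ MX.Bd Cg (max Ad Ag) (min ηd (ε / 2)) x T z :=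
    Bd_mono hCg le_rfl (le_max_right _ _) (min_le_right _ _) hT1 hx0.le hz
  calc _ ≤ MX.Bd Cd (max Ad Ag) (min ηd (ε / 2)) x T z + MX.Bd Cg (max Ad Ag) (min ηd (ε / 2)) x T z :=
        hge2.trans (add_le_add (hds'.trans c1) c2)
    _ = MX.Bd (Cd + Cg) (max Ad Ag) (min ηd (ε / 2)) x T z := by
        unfold MX.Bd
        ring

end Pool.Agent.Lib.ND
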