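import Pool.Agent.Lib.ND.Spec
import Pool.Agent.Lib.NLS.DefS

/-!
MP_00e23e_nt, project ND, module BinD (helper28): from the second Cauchy inequality (SecN) and the pair bounds with a colour to the
bound of the sums TG. The coefficients are an average over the subsets c of range K of coefficients for which the primes of r/ρ r are
in c and the primes of s1 s2 are not in c.
-/

set_option autoImplicit false

namespace Pool.Agent.Lib.ND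

open Finset Pool.Agent.Lib.EH3 Pool.Agent.Lib.TB Pool.Agent.Results.MP_00e23e_nt Pool.Agent.Lib.MI
open Pool.Agent.Lib.MX (Bd Mz Bd_nonneg Bd_mono rp_le rn_le log_le_T Tau_x)

/-- 2^ω(n) ≤ τ(n) -/
private lemma BinD_pow {n : ℕ} (hn : n ≠ 0) : (2 : ℕ) ^ n.primeFactors.card ≤ n.divisors.card := by
  rw [← Finset.card_powerset]
  refine Finset.card_le_card_of_injOn (fun U => ∏ p ∈ U, p) ?_ ?_
  · intro U hU
    have h1 : U ⊆ n.primeFactors := Finset.mem_powerset.1 (Finset.mem_coe.1 hU)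
    refine Finset.mem_coe.2 (Nat.mem_divisors.2 ⟨?_, hn⟩)
    exact Finset.prod_primes_dvd _ (fun p hp => (Nat.prime_of_mem_primeFactors (h1 hp)).prime)
      (fun p hp => Nat.dvd_of_mem_primeFactors (h1 hp))
  · intro U hU V hV hUV
    have h1 : U ⊆ n.primeFactors := Finset.mem_powerset.1 (Finset.mem_coe.1 hU)
    have h2 : V ⊆ n.primeFactors := Finset.mem_powerset.1 (Finset.mem_coe.1 hV)
    have e1 := Nat.primeFactors_prod (s := U) (fun p hp => Nat.prime_of_mem_primeFactors (h1 hp))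
    have e2 := Nat.primeFactors_prod (s := V) (fun p hp => Nat.prime_of_mem_primeFactors (h2 hp))
    have h3 : ∏ p ∈ U, p = ∏ p ∈ V, p := hUV
    rw [← e1, ← e2, h3]

/-- the average over the colourings -/
private lemma BinD_avg {K : ℕ} {A B : Finset ℕ} (hA : A ⊆ range K) (hB : B ⊆ range K) (hAB : Disjoint A B) :
    ∑ c ∈ (range K).powerset, (if A ⊆ c ∧ Disjoint c B then (2 : ℝ) ^ (A.card + B.card) else 0) = 2 ^ K := by
  classical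
  have e1 : (range K).powerset.filter (fun c => A ⊆ c ∧ Disjoint c B) = Icc A (range K \ B) := by
    ext c
    rw [Finset.mem_filter, Finset.mem_powerset, Finset.mem_Icc]
    constructor
    · rintro ⟨h1, h2, h3⟩
      exact ⟨h2, Finset.subset_sdiff.2 ⟨h1, h3⟩⟩
    · rintro ⟨h1, h2⟩
      obtain ⟨h3, h4⟩ := Finset.subset_sdiff.1 h2
      exact ⟨h3, h1, h4⟩
  have hAs : A ⊆ range K \ B := Finset.subset_sdiff.2 ⟨hA, hAB⟩
  have c1 : (range K \ B).card = K - B.card := by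
    rw [Finset.card_sdiff_of_subset hB, Finset.card_range]
  have c2 : B.card ≤ K := by
    have := Finset.card_le_card hB
    rwa [Finset.card_range] at this
  have c3 : A.card ≤ K - B.card := by
    have := Finset.card_le_card hAs
    rwa [c1] at this
  rw [← Finset.sum_filter, Finset.sum_const, e1, Finset.card_Icc_finset hAs, c1, nsmul_eq_mul]
  push_cast
  rw [← pow_add]
  congr 1
  omega

/-- the weight of the colouring c -/
private noncomputable def BinD_w (ρ : ℕ → ℕ) (c : Finset ℕ) (r s1 s2 : ℕ) : ℝ :=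
  if (r / ρ r).primeFactors ⊆ c ∧ Disjoint c (s1 * s2).primeFactors then
    (2 : ℝ) ^ ((r / ρ r).primeFactors.card + (s1 * s2).primeFactors.card) else 0

/-- the sums TG are linear in the coefficients -/
private lemma BinD_sum (a : ℕ → ℕ → ℤ) (g : ℕ) (h : ℤ) (R S N : ℕ) (γ : ℕ → ℕ → ℕ → ℂ) (ω : ℕ → ℕ → ℂ)
    (s : Finset (Finset ℕ)) (F : Finset ℕ → ℕ → ℕ → ℕ → ℂ) (z : ℂ)
    (hF : ∀ r s1 s2, ∑ i ∈ s, F i r s1 s2 = z * γ r s1 s2) :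
    ∑ i ∈ s, SL.TG a g h R S N (F i) ω = z * SL.TG a g h R S N γ ω := by
  unfold SL.TG
  rw [Finset.sum_comm, Finset.mul_sum]
  refine Finset.sum_congr rfl fun r _ => ?_
  rw [Finset.sum_comm, Finset.mul_sum]
  refine Finset.sum_congr rfl fun s1 _ => ?_
  rw [Finset.sum_comm, Finset.mul_sum]
  refine Finset.sum_congr rfl fun s2 _ => ?_
  rw [← Finset.sum_mul, hF, mul_assoc]

private lemma BinD_split (a : ℕ → ℕ → ℤ) (g R S N : ℕ) (ω : ℕ → ℕ → ℂ) (Hs : Finset ℤ) (γ : ℤ → ℕ → ℕ → ℕ → ℂ)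
    (v : Finset ℕ → ℕ → ℕ → ℕ → ℝ) (K : ℕ) (T E : ℝ) (hT : 0 < T)
    (hv : ∀ h r s1 s2, γ h r s1 s2 ≠ 0 → ∑ c ∈ (range K).powerset, v c r s1 s2 = 2 ^ K / T)
    (hb : ∀ c : Finset ℕ, ‖∑ h ∈ Hs, SL.TG a g h R S N (fun r s1 s2 => ((v c r s1 s2 : ℝ) : ℂ) * γ h r s1 s2) ω‖ ^ 2 ≤ E) :
    ‖∑ h ∈ Hs, SL.TG a g h R S N (γ h) ω‖ ^ 2 ≤ T ^ 2 * E := by
  have hE : 0 ≤ E := (sq_nonneg _).trans (hb ∅)
  have e1 : ∀ h : ℤ, ∑ c ∈ (range K).powerset, SL.TG a g h R S N (fun r s1 s2 => ((v c r s1 s2 : ℝ) : ℂ) * γ h r s1 s2) ω =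
      (((2 ^ K / T : ℝ)) : ℂ) * SL.TG a g h R S N (γ h) ω := by
    intro h
    refine BinD_sum a g h R S N (γ h) ω _ (fun c r s1 s2 => ((v c r s1 s2 : ℝ) : ℂ) * γ h r s1 s2) _ fun r s1 s2 => ?_
    by_cases h0 : γ h r s1 s2 = 0
    · rw [h0, mul_zero]
      exact Finset.sum_eq_zero fun c _ => by rw [mul_zero]
    · rw [← Finset.sum_mul, ← hv h r s1 s2 h0]
      push_cast
      rfl
  have e2 : (((2 ^ K / T : ℝ)) : ℂ) * ∑ h ∈ Hs, SL.TG a g h R S N (γ h) ω =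
      ∑ c ∈ (range K).powerset, ∑ h ∈ Hs,
        SL.TG a g h R S N (fun r s1 s2 => ((v c r s1 s2 : ℝ) : ℂ) * γ h r s1 s2) ω := by
    rw [Finset.sum_comm, Finset.mul_sum]
    exact Finset.sum_congr rfl fun h _ => (e1 h).symm
  have hK : (0 : ℝ) < 2 ^ K := by positivity
  have e3 : (2 ^ K / T) * ‖∑ h ∈ Hs, SL.TG a g h R S N (γ h) ω‖ ≤ 2 ^ K * Real.sqrt E := by
    have e4 : ‖(((2 ^ K / T : ℝ)) : ℂ) * ∑ h ∈ Hs, SL.TG a g h R S N (γ h) ω‖ =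
        (2 ^ K / T) * ‖∑ h ∈ Hs, SL.TG a g h R S N (γ h) ω‖ := by
      rw [norm_mul, Complex.norm_real, Real.norm_of_nonneg (by positivity)]
    rw [← e4, e2]
    refine (norm_sum_le_of_le _ fun c _ => Real.le_sqrt_of_sq_le (hb c)).trans ?_
    rw [Finset.sum_const, Finset.card_powerset, Finset.card_range, nsmul_eq_mul]
    push_cast
    exact le_refl _
  have e5 : ‖∑ h ∈ Hs, SL.TG a g h R S N (γ h) ω‖ ≤ T * Real.sqrt E := by
    have e6 : 2 ^ K * ‖∑ h ∈ Hs, SL.TG a g h R S N (γ h) ω‖ ≤ 2 ^ K * (T * Real.sqrt E) := by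
      calc 2 ^ K * ‖∑ h ∈ Hs, SL.TG a g h R S N (γ h) ω‖ =
            T * ((2 ^ K / T) * ‖∑ h ∈ Hs, SL.TG a g h R S N (γ h) ω‖) := by field_simp
        _ ≤ T * (2 ^ K * Real.sqrt E) := mul_le_mul_of_nonneg_left e3 hT.le
        _ = 2 ^ K * (T * Real.sqrt E) := by ring
    exact le_of_mul_le_mul_left e6 hK
  calc ‖∑ h ∈ Hs, SL.TG a g h R S N (γ h) ω‖ ^ 2 ≤ (T * Real.sqrt E) ^ 2 :=
        pow_le_pow_left₀ (norm_nonneg _) e5 2
    _ = T ^ 2 * E := by rw [mul_pow, Real.sq_sqrt hE]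

private lemma BinD_SuC {μ κ l x : ℝ} {a : ℕ → ℕ → ℤ} {ρ : ℕ → ℕ} {R S R0 : ℕ} {P : Finset (ℕ × ℕ)}
    (hPr : PrD μ κ l x a ρ R S R0 P) {c : Finset ℕ} {r s1 s2 : ℕ} (hp1 : (r, s1) ∈ P) (hp2 : (r, s2) ∈ P)
    (h1 : (r / ρ r).primeFactors ⊆ c) (h2 : Disjoint c (s1 * s2).primeFactors) :
    SuC (x ^ κ) c R S R0 (ρ r) (r / ρ r) s1 s2 := by
  obtain ⟨⟨a1, a2, a3, a4, -, -⟩, ⟨a7, a8, a9⟩, -, a10, a11⟩ := hPr.2 (r, s1) hp1
  obtain ⟨⟨-, -, b3, b4, -, -⟩, -, -, b10, -⟩ := hPr.2 (r, s2) hp2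
  simp only at a1 a2 a3 a4 a7 a8 a9 a10 a11 b3 b4 b10
  have e : ρ r * (r / ρ r) = r := Nat.mul_div_cancel' a7
  have hr0 : r ≠ 0 := by omega
  have hq0 : r / ρ r ≠ 0 := fun h => hr0 (by rw [← e, h, mul_zero])
  have hs0 : s1 * s2 ≠ 0 := mul_ne_zero (by omega) (by omega)
  refine ⟨⟨a8, a9⟩, ⟨by rw [e]; exact a1, by rw [e]; exact a2⟩, ⟨a3, a4⟩, ⟨b3, b4⟩,
    fun p hp hd => h1 (Nat.mem_primeFactors.2 ⟨hp, hd, hq0⟩), fun p hp hd hc => ?_, fun p hp hd => ?_⟩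
  · exact Finset.disjoint_left.1 h2 hc (Nat.mem_primeFactors.2 ⟨hp, hd, hs0⟩)
  · rcases (Nat.Prime.dvd_mul hp).1 hd with h3 | h3
    · rcases (Nat.Prime.dvd_mul hp).1 h3 with h4 | h4
      · exact a11 p hp h4
      · exact a10 p hp h4
    · exact b10 p hp h3

/-- the sets of primes of one tuple -/
private lemma BinD_sets {μ κ l x : ℝ} {a : ℕ → ℕ → ℤ} {ρ : ℕ → ℕ} {R S R0 : ℕ} {P : Finset (ℕ × ℕ)}
    (hPr : PrD μ κ l x a ρ R S R0 P) {r s1 s2 : ℕ} (hp1 : (r, s1) ∈ P) (hp2 : (r, s2) ∈ P) :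
    (r / ρ r).primeFactors ⊆ range (2 * R + 2 * S + 1) ∧ (s1 * s2).primeFactors ⊆ range (2 * R + 2 * S + 1) ∧
      Disjoint (r / ρ r).primeFactors (s1 * s2).primeFactors ∧ (r / ρ r * (s1 * s2)) ≠ 0 ∧
      r / ρ r * (s1 * s2) ≤ 8 * (R * S ^ 2) ∧
      (r / ρ r * (s1 * s2)).primeFactors.card = (r / ρ r).primeFactors.card + (s1 * s2).primeFactors.card := by
  obtain ⟨⟨a1, a2, a3, a4, a5, -⟩, ⟨a7, a8, a9⟩, -⟩ := hPr.2 (r, s1) hp1
  obtain ⟨⟨-, -, b3, b4, b5, -⟩, -⟩ := hPr.2 (r, s2) hp2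
  simp only at a1 a2 a3 a4 a5 a7 a8 a9 b3 b4 b5
  have e : ρ r * (r / ρ r) = r := Nat.mul_div_cancel' a7
  have hr0 : r ≠ 0 := by omega
  have hq0 : r / ρ r ≠ 0 := fun h => hr0 (by rw [← e, h, mul_zero])
  have hs1 : s1 ≠ 0 := by omega
  have hs2 : s2 ≠ 0 := by omega
  have hs0 : s1 * s2 ≠ 0 := mul_ne_zero hs1 hs2
  have hqr : r / ρ r ∣ r := Nat.div_dvd_of_dvd a7
  have hqle : r / ρ r ≤ 2 * R := (Nat.div_le_self _ _).trans a2
  have k1 : (r / ρ r).Coprime s1 := Nat.Coprime.coprime_dvd_left hqr (Nat.squarefree_mul_iff.1 a5).1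
  have k2 : (r / ρ r).Coprime s2 := Nat.Coprime.coprime_dvd_left hqr (Nat.squarefree_mul_iff.1 b5).1
  have k3 : (r / ρ r).Coprime (s1 * s2) := Nat.Coprime.mul_right k1 k2
  have hdis := k3.disjoint_primeFactors
  refine ⟨fun p hp => ?_, fun p hp => ?_, hdis, mul_ne_zero hq0 hs0, ?_, ?_⟩
  · have h1 := Nat.le_of_mem_primeFactors hp
    exact Finset.mem_range.2 (by omega)
  · have hpp := Nat.prime_of_mem_primeFactors hp
    rcases (Nat.Prime.dvd_mul hpp).1 (Nat.dvd_of_mem_primeFactors hp) with h1 | h1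
    · have := Nat.le_of_dvd (Nat.pos_of_ne_zero hs1) h1
      exact Finset.mem_range.2 (by omega)
    · have := Nat.le_of_dvd (Nat.pos_of_ne_zero hs2) h1
      exact Finset.mem_range.2 (by omega)
  · calc r / ρ r * (s1 * s2) ≤ (2 * R) * ((2 * S) * (2 * S)) := Nat.mul_le_mul hqle (Nat.mul_le_mul a4 b4)
      _ = 8 * (R * S ^ 2) := by ring
  · rw [Nat.primeFactors_mul hq0 hs0, Finset.card_union_of_disjoint hdis]

/-- the final numbers of one class -/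
private lemma BinD_num {C1 C2 TA1 TA2 g R S N H R0 ep W0 : ℝ} (hC1 : 0 < C1) (hC2 : 0 < C2) (hT1 : 0 < TA1)
    (hT2 : 0 < TA2) (hg : 1 ≤ g) (hR : 0 < R) (hS : 0 < S) (hN : 0 < N) (hH : 0 < H) (hR0 : 0 < R0)
    (hep : 0 < ep) (hW0 : 0 ≤ W0) :
    C1 * TA1 * (33 * C2 * TA2 * (N ^ 2 * R0 / (g * R ^ 2)) * N ^ 2 * R ^ 2 * S ^ 2 * H ^ 2) *
      (W0 / (ep * g ^ 2) + ep * S ^ 2 / (R0 * g ^ 5)) ≤
    33 * C1 * C2 * (TA1 * TA2) * (S ^ 2 * N ^ 2) ^ 2 * ((H / g) ^ 2 * (R0 * W0 / (ep * S ^ 2) + ep)) := by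
  have hg0 : 0 < g := by linarith
  have e1 : C1 * TA1 * (33 * C2 * TA2 * (N ^ 2 * R0 / (g * R ^ 2)) * N ^ 2 * R ^ 2 * S ^ 2 * H ^ 2) *
      (W0 / (ep * g ^ 2) + ep * S ^ 2 / (R0 * g ^ 5)) =
      33 * C1 * C2 * (TA1 * TA2) * (S ^ 2 * N ^ 2) ^ 2 *
        ((H / g) ^ 2 * (R0 * W0 / (ep * S ^ 2) * (1 / g) + ep * (1 / g ^ 4))) := by
    field_simp
  rw [e1]
  refine mul_le_mul_of_nonneg_left (mul_le_mul_of_nonneg_left (add_le_add ?_ ?_) (by positivity)) (by positivity)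
  · exact mul_le_of_le_one_right (by positivity) ((div_le_one hg0).2 hg)
  · exact mul_le_of_le_one_right hep.le ((div_le_one (by positivity)).2 (one_le_pow₀ hg))

theorem tBinD (h1 : NLS.SecNStmt) (h2 : PbTcStmt) (h3 : PbMcStmt) (h4 : NumDStmt) : BinDStmt := by
  intro μ κ ν θ l w hw
  obtain ⟨C1, hC1, A1, hS⟩ := h1
  obtain ⟨k, σ, e0, hσ, he0, hnum⟩ := h4 μ κ ν θ l w hw
  obtain ⟨C2, hC2, A2, hF⟩ := h3 k
  refine ⟨e0, he0, fun δ ε hε hPar => ?_⟩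
  obtain ⟨x0, hx0, hN⟩ := hnum δ ε C2 hε hPar hC2
  refine ⟨33 * C1 * C2, 100, max x0 (6 ^ (1 / w)), A1 + A2 + 2, by positivity, by norm_num, ?_⟩
  intro x T a ρ g M N R S R0 Hm P hxx hTau hBlk hR hRN hg hgx hHm hsize hPr H' Hs γ ω hH1 hH'm hHs hγ hω ht hsupp
  have hx : x0 ≤ x := (le_max_left _ _).trans hxx
  have hx6 : 6 ≤ x ^ w := by
    have e1 : (6 ^ (1 / w) : ℝ) ^ w ≤ x ^ w :=
      Real.rpow_le_rpow (by positivity) ((le_max_right _ _).trans hxx) hw.le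
    rwa [← Real.rpow_mul (by norm_num : (0 : ℝ) ≤ 6), one_div_mul_cancel hw.ne', Real.rpow_one] at e1
  have hHr : (H' : ℝ) ≤ (Hm : ℝ) := by exact_mod_cast hH'm
  have hsize' : (2 * (R : ℝ) * (S : ℝ) ^ 2 * N * H') ^ 12 ≤ x ^ (30 : ℝ) :=
    (pow_le_pow_left₀ (by positivity) (mul_le_mul_of_nonneg_left hHr (by positivity)) 12).trans hsize
  obtain ⟨⟨hR2, hS1, hN1, hR01, hR0R, hRN', ht01, h2Rg, h8, h8X⟩, ⟨hW0, hZ1, hy1, hWw, hΔ, hZΔ⟩, hc1, hc2, hc3, hc4, ht0Q,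
    hfin⟩ := hN x g H' M N R S R0 hx hBlk hR hg hgx hH1 (hHr.trans hHm) hPr.1.1 hPr.1.2.1 hPr.1.2.2 hsize'
  have hT : 1 ≤ T := hTau.1
  have hT0 : 0 < T := by linarith
  have hgr : (1 : ℝ) ≤ (g : ℝ) := by exact_mod_cast hg
  have hRr : (0 : ℝ) < (R : ℝ) := by exact_mod_cast (by omega : 0 < R)
  have hSr : (0 : ℝ) < (S : ℝ) := by exact_mod_cast (by omega : 0 < S)
  have hNr : (0 : ℝ) < (N : ℝ) := by exact_mod_cast (by omega : 0 < N)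
  have hHr0 : (0 : ℝ) < (H' : ℝ) := by exact_mod_cast (by omega : 0 < H')
  have hR0r : (0 : ℝ) < (R0 : ℝ) := by exact_mod_cast (by omega : 0 < R0)
  have ht0r : (1 : ℝ) ≤ ((⌊x ^ (w / 4)⌋₊ : ℕ) : ℝ) := by exact_mod_cast ht01
  have hx1 : 1 ≤ x := hx0.trans hx
  have hx00 : 0 < x := by linarith
  have hW : 0 < x ^ (w / 4) := Real.rpow_pos_of_pos hx00 _
  have hQ0 : 0 < NLB.Qn g R N R0 := by
    unfold NLB.Qn
    positivity
  have hep : 0 < NMB.epM w σ x g R N R0 := by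
    unfold NMB.epM
    positivity
  have hD : 0 ≤ 33 * C2 * T ^ A2 * NLB.Qn g R N R0 := by positivity
  -- the weights
  have hwT : ∀ (c : Finset ℕ) (h : ℤ) (r s1 s2 : ℕ), γ h r s1 s2 ≠ 0 → 0 ≤ BinD_w ρ c r s1 s2 ∧ BinD_w ρ c r s1 s2 ≤ T := by
    intro c h r s1 s2 hh
    obtain ⟨hp1, hp2⟩ := hsupp h r s1 s2 hh
    obtain ⟨-, -, -, b4, b5, b6⟩ := BinD_sets hPr hp1 hp2
    unfold BinD_w
    by_cases hc : (r / ρ r).primeFactors ⊆ c ∧ Disjoint c (s1 * s2).primeFactors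
    · rw [if_pos hc, ← b6]
      refine ⟨by positivity, ?_⟩
      have e1 := BinD_pow b4
      have e2 : ((r / ρ r * (s1 * s2) : ℕ) : ℝ) ≤ x ^ (30 : ℝ) := by
        refine le_trans ?_ h8X
        exact_mod_cast b5
      have e3 := hTau.2.2 _ (Nat.pos_of_ne_zero b4) e2
      refine le_trans ?_ e3
      exact_mod_cast e1
    · rw [if_neg hc]
      exact ⟨le_refl _, hT0.le⟩
  -- one colouring
  have hone : ∀ c : Finset ℕ, ‖∑ h ∈ Hs, SL.TG a g h R S N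
      (fun r s1 s2 => ((BinD_w ρ c r s1 s2 / T : ℝ) : ℂ) * γ h r s1 s2) ω‖ ^ 2 ≤
      C1 * T ^ A1 * (33 * C2 * T ^ A2 * NLB.Qn g R N R0 * (N : ℝ) ^ 2 * (R : ℝ) ^ 2 * (S : ℝ) ^ 2 * (H' : ℝ) ^ 2) *
        (Real.sqrt (x ^ (2 * κ + w)) / (NMB.epM w σ x g R N R0 * (g : ℝ) ^ 2) +
          NMB.epM w σ x g R N R0 * (S : ℝ) ^ 2 / (R0 * (g : ℝ) ^ 5)) := by
    intro c
    have hne : ∀ h r s1 s2, ((BinD_w ρ c r s1 s2 / T : ℝ) : ℂ) * γ h r s1 s2 ≠ 0 →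
        ((r / ρ r).primeFactors ⊆ c ∧ Disjoint c (s1 * s2).primeFactors) ∧ (r, s1) ∈ P ∧ (r, s2) ∈ P := by
      intro h r s1 s2 hh
      have h5 : γ h r s1 s2 ≠ 0 := fun h6 => hh (by rw [h6, mul_zero])
      refine ⟨?_, hsupp h r s1 s2 h5⟩
      by_contra hc
      refine hh ?_
      have : BinD_w ρ c r s1 s2 = 0 := by
        unfold BinD_w
        rw [if_neg hc]
      rw [this, zero_div, Complex.ofReal_zero, zero_mul]
    refine hS (x ^ (30 : ℝ)) T (33 * C2 * T ^ A2 * NLB.Qn g R N R0) (NMB.epM w σ x g R N R0) (x ^ (2 * κ + w)) a ρ g R S N H' R0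
      ⌊x ^ (w / 4)⌋₊ Hs (fun h r s1 s2 => ((BinD_w ρ c r s1 s2 / T : ℝ) : ℂ) * γ h r s1 s2) ω hTau hD hep hW0 hg
      hR hS1 hN1 hH1 hR01 h2Rg h8X hHs ?_ hω ht ?_ ?_
    · intro h r s1 s2
      by_cases h5 : γ h r s1 s2 = 0
      · rw [h5, mul_zero, norm_zero]
        exact zero_le_one
      · obtain ⟨h6, h7⟩ := hwT c h r s1 s2 h5
        rw [norm_mul, Complex.norm_real, Real.norm_of_nonneg (by positivity)]
        have h8' : BinD_w ρ c r s1 s2 / T ≤ 1 := (div_le_one hT0).2 h7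
        have h9 := hγ h r s1 s2
        calc BinD_w ρ c r s1 s2 / T * ‖γ h r s1 s2‖ ≤ 1 * 1 := mul_le_mul h8' h9 (norm_nonneg _) zero_le_one
          _ = 1 := one_mul 1
    · intro h r s1 s2 _ _ _ _ hh
      obtain ⟨-, hp1, hp2⟩ := hne h r s1 s2 hh
      obtain ⟨⟨a1, a2, a3, a4, -, -⟩, ⟨a7, a8, a9⟩, -⟩ := hPr.2 (r, s1) hp1
      obtain ⟨⟨-, -, b3, b4, -, -⟩, -⟩ := hPr.2 (r, s2) hp2
      exact ⟨⟨a1, a2⟩, ⟨a3, a4⟩, ⟨b3, b4⟩, a7, a8, a9⟩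
    · intro h h' r s1 s2 r' s1' s2' hh hh' hne1 hne2 hg1 hg2 hs hs' hρ
      obtain ⟨⟨hc1', hc1''⟩, hp1, hp2⟩ := hne h r s1 s2 hne1
      obtain ⟨⟨hc2', hc2''⟩, hp1', hp2'⟩ := hne h' r' s1' s2' hne2
      have s1P := BinD_SuC hPr hp1 hp2 hc1' hc1''
      have s2P := BinD_SuC hPr hp1' hp2' hc2' hc2''
      rw [← hρ] at s2P
      have er : ρ r * (r / ρ r) = r := Nat.mul_div_cancel' hs.2.2.2.1
      have er' : ρ r * (r' / ρ r) = r' := by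
        rw [hρ]
        exact Nat.mul_div_cancel' hs'.2.2.2.1
      have hPT := h2 a (x ^ κ) c g R S N R0 ⌊x ^ (w / 4)⌋₊ (ρ r) (r / ρ r) (r' / ρ r) s1 s2 s1' s2'
        h h' hR01 hR hN1 s1P s2P h8
      rw [er, er'] at hPT
      rw [← hρ]
      refine ⟨hPT.trans ?_, fun hWn => ?_⟩
      · refine mul_le_mul_of_nonneg_right ?_ (Nat.cast_nonneg _)
        have e1 : 1 ≤ C2 * T ^ A2 := by
          have := mul_le_mul hC2 (one_le_pow₀ hT : 1 ≤ T ^ A2) zero_le_one (by linarith)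
          linarith
        calc 32 * ((N : ℝ) ^ 2 * R0 / (g * (R : ℝ) ^ 2)) + ((⌊x ^ (w / 4)⌋₊ : ℕ) : ℝ)
            ≤ 32 * NLB.Qn g R N R0 + NLB.Qn g R N R0 := add_le_add (le_of_eq rfl) ht0Q
          _ = 33 * 1 * NLB.Qn g R N R0 := by ring
          _ ≤ 33 * (C2 * T ^ A2) * NLB.Qn g R N R0 := by gcongr
          _ = 33 * C2 * T ^ A2 * NLB.Qn g R N R0 := by ring
      · obtain ⟨m, hmρ, hmx, hmp⟩ := (hPr.2 (r, s1) hp1).2.2.1
        have h3m : 3 * m ≤ R := by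
          have hμl : x ^ μ * x ^ w ≤ x ^ l := by
            rw [← Real.rpow_add hx00]
            obtain ⟨⟨-, q2, -, q4, -⟩, -⟩ := hPar
            exact Real.rpow_le_rpow_of_exponent_le hx1 (by linarith)
          have e1 : (m : ℝ) * 6 ≤ 2 * (R : ℝ) := by
            have e2 : (R0 : ℝ) ≤ (R : ℝ) := by exact_mod_cast hR0R
            have e3 : (m : ℝ) * 6 ≤ x ^ μ * x ^ w := mul_le_mul hmx hx6 (by norm_num) (Real.rpow_nonneg hx00.le _)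
            linarith [hPr.1.1]
          have e4 : ((3 * m : ℕ) : ℝ) ≤ (R : ℝ) := by
            push_cast
            linarith
          exact_mod_cast e4
        have hc1m : 4 * (x ^ (κ + w / 4)) ^ 2 * (R : ℝ) ^ 2 * g * m ≤ R0 * (N : ℝ) ^ 2 :=
          (mul_le_mul_of_nonneg_left hmx (by positivity)).trans hc1
        have hPF := hF (x ^ (30 : ℝ)) T (x ^ (κ + w / 4)) (x ^ (2 * κ + w)) (x ^ (w / 16))
          (x ^ κ) (x ^ (-σ)) a c g R S N H' R0 ⌊x ^ (w / 4)⌋₊ m (ρ r) (r / ρ r) (r' / ρ r) s1 s2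
          s1' s2' h h' hTau ⟨hg, hR2, hS1, hN1, hH1, hR01, hR0R, hRN'⟩ ht01 hmρ h3m hsize' hZ1 hy1 hΔ hZΔ s1P s2P hmp
          (hHs h hh) (hHs h' hh') hWn.le hc1m hc2 hc3 hc4
        rw [er, er'] at hPF
        refine hPF.trans (mul_le_mul_of_nonneg_right ?_ (Nat.cast_nonneg _))
        have e2 : NLB.Qn g R N R0 * NMB.epM w σ x g R N R0 = NLB.Qn g R N R0 * (x ^ (-σ) + 1 / ((⌊x ^ (w / 4)⌋₊ : ℕ) : ℝ) +
            1 / x ^ (w / 4)) + ((⌊x ^ (w / 4)⌋₊ : ℕ) : ℝ) := by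
          unfold NMB.epM
          rw [mul_add, mul_div_cancel₀ _ hQ0.ne']
        have e3 : (N : ℝ) ^ 2 * R0 / (g * (R : ℝ) ^ 2) = NLB.Qn g R N R0 := rfl
        have e6 : 1 / x ^ (κ + w / 4) ≤ 1 / x ^ (w / 4) := one_div_le_one_div_of_le hW hWw
        have e4 : 0 ≤ C2 * T ^ A2 * (NLB.Qn g R N R0 * NMB.epM w σ x g R N R0) := by positivity
        have e5 : 33 * C2 * T ^ A2 * NLB.Qn g R N R0 * NMB.epM w σ x g R N R0 =
            33 * (C2 * T ^ A2 * (NLB.Qn g R N R0 * NMB.epM w σ x g R N R0)) := by ring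
        rw [e3, e5]
        have e7 : C2 * T ^ A2 * (NLB.Qn g R N R0 * (x ^ (-σ) + 1 / ((⌊x ^ (w / 4)⌋₊ : ℕ) : ℝ) +
            1 / x ^ (κ + w / 4)) + ((⌊x ^ (w / 4)⌋₊ : ℕ) : ℝ)) ≤
            C2 * T ^ A2 * (NLB.Qn g R N R0 * NMB.epM w σ x g R N R0) := by
          rw [e2]
          have hCT : 0 ≤ C2 * T ^ A2 := by positivity
          refine mul_le_mul_of_nonneg_left ?_ hCT
          have e8 : NLB.Qn g R N R0 * (x ^ (-σ) + 1 / ((⌊x ^ (w / 4)⌋₊ : ℕ) : ℝ) + 1 / x ^ (κ + w / 4)) ≤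
              NLB.Qn g R N R0 * (x ^ (-σ) + 1 / ((⌊x ^ (w / 4)⌋₊ : ℕ) : ℝ) + 1 / x ^ (w / 4)) :=
            mul_le_mul_of_nonneg_left (by linarith) hQ0.le
          linarith
        refine e7.trans ?_
        linarith
  -- all colourings
  have hall := BinD_split a g R S N ω Hs γ (fun c r s1 s2 => BinD_w ρ c r s1 s2 / T) (2 * R + 2 * S + 1) T _ hT0 (by
    intro h r s1 s2 hh
    obtain ⟨hp1, hp2⟩ := hsupp h r s1 s2 hh
    obtain ⟨b1, b2, b3, -, -, -⟩ := BinD_sets hPr hp1 hp2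
    rw [← Finset.sum_div]
    congr 1
    exact BinD_avg b1 b2 b3) hone
  refine hall.trans ?_
  have hnum1 := BinD_num (C1 := C1) (C2 := C2) (TA1 := T ^ A1) (TA2 := T ^ A2) (g := (g : ℝ)) (R := (R : ℝ)) (S := (S : ℝ))
    (N := (N : ℝ)) (H := (H' : ℝ)) (R0 := (R0 : ℝ)) (ep := NMB.epM w σ x g R N R0) (W0 := Real.sqrt (x ^ (2 * κ + w)))
    hC1 (by linarith) (by positivity) (by positivity) hgr hRr hSr hNr hHr0 hR0r hep (Real.sqrt_nonneg _)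
  have e3 : (N : ℝ) ^ 2 * R0 / (g * (R : ℝ) ^ 2) = NLB.Qn g R N R0 := rfl
  rw [e3] at hnum1
  calc T ^ 2 * _ ≤ T ^ 2 * _ := mul_le_mul_of_nonneg_left hnum1 (by positivity)
    _ ≤ T ^ 2 * (33 * C1 * C2 * (T ^ A1 * T ^ A2) * ((S : ℝ) ^ 2 * (N : ℝ) ^ 2) ^ 2 * (((H' : ℝ) / g) ^ 2 *
        (100 * x ^ (-(30 * ε))))) :=
        mul_le_mul_of_nonneg_left (mul_le_mul_of_nonneg_left (mul_le_mul_of_nonneg_left hfin (by positivity))
          (by positivity)) (by positivity)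
    _ = _ := by rw [pow_add, pow_add]; ring

end Pool.Agent.Lib.ND
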