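import Pool.Agent.Lib.ND.Spec
import Pool.Agent.Lib.NMA.Spec

/-!
MP_00e23e_nt, project ND (densely divisible moduli, 5 μ + 12 κ < 1), module EndD (helper28, helper83): the choice of the parameters and the
theorem for the von Mangoldt function, from the chapters T (BinD), B (BfiD) and A' (NMA.MfiStmt).
-/

set_option autoImplicit false

namespace Pool.Agent.Lib.ND

open Finset Pool.Agent.Lib.EH3 Pool.Agent.Lib.TB Pool.Agent.Results.MP_00e23e_nt Pool.Agent.Lib.MI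
open Pool.Agent.Lib.MX (Bd Mz Bd_nonneg Bd_mono rp_le rn_le log_le_T Tau_x)

/-- w = (1 - 5μ - 12κ)/100, l = μ + 2κ + w, ν = max (1/6 + w) (μ + 2κ + 2w), θ = 2ν -/
private lemma EndD_choice (μ κ : ℝ) (h0 : 0 ≤ μ) (h1 : 0 ≤ κ) (h2 : 5 * μ + 12 * κ < 1) : ∃ ν l w : ℝ, 0 < w ∧
    w ≤ 1 / 100 ∧ 1 / 6 + w ≤ ν ∧ 2 * ν ≤ 2 / 5 - w ∧ μ + 2 * κ + w ≤ l ∧ l + w ≤ ν ∧
    2 * (2 * ν) + l + 2 * κ + w ≤ 1 := by
  obtain ⟨w, hw⟩ : ∃ w : ℝ, w = (1 - 5 * μ - 12 * κ) / 100 := ⟨_, rfl⟩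
  have hw1 : 100 * w = 1 - 5 * μ - 12 * κ := by rw [hw]; ring
  have hw0 : 0 < w := by linarith
  rcases le_total (1 / 6 + w) (μ + 2 * κ + 2 * w) with h | h
  · exact ⟨μ + 2 * κ + 2 * w, μ + 2 * κ + w, w, hw0, by linarith, h, by linarith, le_refl _, by linarith, by linarith⟩
  · exact ⟨1 / 6 + w, μ + 2 * κ + w, w, hw0, by linarith, le_refl _, by linarith, le_refl _, by linarith, by linarith⟩

theorem tEndD (h1 : NMA.MfiStmt) (h2 : BfiDStmt) (h3 : BinDStmt) : EndDStmt := by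
  intro μ κ hμ hκ hμκ
  obtain ⟨ν, l, w, hw, hw1, hν, hθ, hl, hν2, h8⟩ := EndD_choice μ κ hμ hκ hμκ
  obtain ⟨e0, he0, hB⟩ := h3 μ κ ν (2 * ν) l w hw
  obtain ⟨ε, hε⟩ : ∃ ε : ℝ, ε = min e0 (w / 100000) := ⟨_, rfl⟩
  have hε1 : ε ≤ e0 := by rw [hε]; exact min_le_left _ _
  have hε2 : ε ≤ w / 100000 := by rw [hε]; exact min_le_right _ _
  have hε0 : 0 < ε := by rw [hε]; exact lt_min he0 (by positivity)
  have hP : ParD μ κ ν (2 * ν) l w ε ε :=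
    ⟨⟨hμ, hκ, hw, hl, hν2⟩, ⟨le_refl _, by linarith, h8⟩, ⟨hε0.le, le_refl _⟩, hε0, by linarith⟩
  have hPA : NMA.ParAM (1 / 2 + ε) (ε / 16) ν (2 * ν) ε :=
    ⟨⟨hε0, by linarith, by positivity, by positivity, by linarith⟩, ⟨by linarith, le_refl _, by linarith, by linarith⟩,
      by linarith, by linarith⟩
  refine ⟨w / 2, ε, by positivity, hε0, by linarith, by linarith, ?_⟩
  exact h1 _ _ _ ν (2 * ν) ε hPA (h2 μ κ ν (2 * ν) l w ε ε hP hν hθ (hB ε ε hε1 hP))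

end Pool.Agent.Lib.ND
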