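import Pool.Agent.Lib.ND.Def
import Pool.Agent.Lib.NM.SpecL

/-!
MP_00e23e_nt, project ND, module Mfc (helper28): the lattice theorem of helper83 (Lib/NM/Mfi.lean) with the hypothesis C (Z y) ≤ W in
place of C (Z y)^2 ≤ W; a copy of NM/Mfi.lean with two changed lines.
-/

set_option autoImplicit false

namespace Pool.Agent.Lib.ND

open Finset Pool.Agent.Lib.EH3 Pool.Agent.Lib.TB Pool.Agent.Results.MP_00e23e_nt Pool.Agent.Lib.MI
open Pool.Agent.Lib.SLG (nm dt Bs pt2 bx JJ tz)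
open Pool.Agent.Lib.NM (Dm MclStmt MgdStmt MdcStmt MphStmt)

private lemma Mfc_tz (c : ℤ) (q : ℕ) (n : ℕ) : tz c q (n : ℤ) = t1g c q n := by
  unfold tz
  have e1 : (((n : ℤ) % (q : ℤ)).toNat) = n % q := by
    rw [← Int.natCast_mod]
    exact Int.toNat_natCast _
  rw [e1]
  have e2 : n = n % q + (n / q) * q := by
    have := Nat.mod_add_div n q
    rw [mul_comm] at this
    exact this.symm
  conv_rhs => rw [e2]
  rw [t1_g_add_mul]

private lemma Mfc_norm (c : ℤ) (q : ℕ) (n : ℤ) : ‖tz c q n‖ ≤ 1 := t1_norm_g _ _ _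

private lemma Mfc_prod (c1 c2 : ℤ) (q1 q2 : ℕ) (n m : ℤ) : ‖tz c1 q1 n * tz c2 q2 m‖ ≤ 1 := by
  rw [norm_mul]
  calc ‖tz c1 q1 n‖ * ‖tz c2 q2 m‖ ≤ 1 * 1 :=
        mul_le_mul (Mfc_norm _ _ _) (Mfc_norm _ _ _) (norm_nonneg _) zero_le_one
    _ = 1 := one_mul 1

/-- the phase vanishes if n is not coprime to B -/
private lemma Mfc_zero {c : ℤ} {B w : ℕ} {n : ℤ} (hq : 1 ≤ B * w) (h : tz c (B * w) n ≠ 0) : Int.gcd n B = 1 := by
  unfold tz t1g at h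
  have h1 : ((n % ((B * w : ℕ) : ℤ)).toNat).Coprime (B * w) := by
    by_contra hc
    exact h (if_neg hc)
  have h2 : ((n % ((B * w : ℕ) : ℤ)).toNat).Coprime B := Nat.Coprime.coprime_mul_right_right h1
  have h0 : 0 ≤ n % ((B * w : ℕ) : ℤ) := Int.emod_nonneg _ (by exact_mod_cast (by omega : B * w ≠ 0))
  have h3 : Int.gcd (n % ((B * w : ℕ) : ℤ)) B = 1 := by
    have : (((n % ((B * w : ℕ) : ℤ)).toNat : ℕ) : ℤ) = n % ((B * w : ℕ) : ℤ) := Int.toNat_of_nonneg h0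
    rw [← this, Int.gcd_natCast_natCast]
    exact h2
  have h4 : (B : ℤ) ∣ n - n % ((B * w : ℕ) : ℤ) := by
    have : ((B * w : ℕ) : ℤ) ∣ n - n % ((B * w : ℕ) : ℤ) := Int.dvd_self_sub_emod
    have h6 : (B : ℤ) ∣ ((B * w : ℕ) : ℤ) := ⟨(w : ℤ), by push_cast; rfl⟩
    exact h6.trans this
  rw [← h3]
  obtain ⟨m, hm⟩ := h4
  have h5 : n = n % ((B * w : ℕ) : ℤ) + m * (B : ℤ) := by linarith
  conv_lhs => rw [h5]
  exact Int.gcd_add_mul_right_left ..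

/-- the number of the lines j ≠ 0 -/
private lemma Mfc_card {J : ℤ} (hJ : 0 ≤ J) : (((Icc (-J) J).filter (fun j => j ≠ 0)).card : ℝ) = 2 * (J : ℝ) := by
  have h1 : (Icc (-J) J).filter (fun j => j ≠ 0) = (Icc (-J) J).erase 0 := by
    ext j
    rw [mem_filter, mem_erase]
    tauto
  have h2 : (0 : ℤ) ∈ Icc (-J) J := mem_Icc.2 ⟨by omega, hJ⟩
  rw [h1, card_erase_of_mem h2, Int.card_Icc]
  have h3 : ((J + 1 - -J).toNat - 1 : ℕ) = (2 * J).toNat := by omega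
  rw [h3]
  have h4 : (((2 * J).toNat : ℕ) : ℤ) = 2 * J := Int.toNat_of_nonneg (by omega)
  have h5 : (((2 * J).toNat : ℕ) : ℝ) = ((2 * J : ℤ) : ℝ) := by rw [← h4]; rfl
  rw [h5]
  push_cast
  ring

/-- one line -/
private lemma Mfc_line (f : ℤ → ℂ) (g : ℤ → ℕ) (P : ℤ → Prop) [DecidablePred P] (s : Finset ℤ) (t0 : ℕ) (E : ℝ)
    (hf : ∀ i, ‖f i‖ ≤ 1) (hP : ∀ i ∈ s, f i ≠ 0 → P i) (hE : ‖∑ i ∈ s, f i‖ ≤ E) :
    ‖∑ i ∈ s, (if g i ≤ t0 then f i else 0)‖ ≤ E + ((s.filter (fun i => P i ∧ t0 < g i)).card : ℝ) := by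
  have e1 : ∑ i ∈ s, (if g i ≤ t0 then f i else 0) = ∑ i ∈ s, f i - ∑ i ∈ s, (if t0 < g i then f i else 0) := by
    rw [← sum_sub_distrib]
    refine sum_congr rfl fun i _ => ?_
    by_cases h : g i ≤ t0
    · rw [if_pos h, if_neg (by omega), sub_zero]
    · rw [if_neg h, if_pos (by omega), sub_self]
  have e2 : ‖∑ i ∈ s, (if t0 < g i then f i else 0)‖ ≤ ((s.filter (fun i => P i ∧ t0 < g i)).card : ℝ) := by
    calc ‖∑ i ∈ s, (if t0 < g i then f i else 0)‖ ≤ ∑ i ∈ s, ‖(if t0 < g i then f i else 0)‖ := norm_sum_le _ _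
      _ ≤ ∑ i ∈ s, (if P i ∧ t0 < g i then (1 : ℝ) else 0) := by
          refine sum_le_sum fun i hi => ?_
          by_cases h : t0 < g i
          · rw [if_pos h]
            by_cases h0 : f i = 0
            · rw [h0, norm_zero]
              split_ifs <;> norm_num
            · rw [if_pos ⟨hP i hi h0, h⟩]
              exact hf i
          · rw [if_neg h, norm_zero]
            split_ifs <;> norm_num
      _ = _ := by rw [sum_boole]
  rw [e1]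
  calc ‖∑ i ∈ s, f i - ∑ i ∈ s, (if t0 < g i then f i else 0)‖
      ≤ ‖∑ i ∈ s, f i‖ + ‖∑ i ∈ s, (if t0 < g i then f i else 0)‖ := norm_sub_le _ _
    _ ≤ _ := add_le_add hE e2

/-- the final numbers -/
private lemma Mfc_num {C1 T N B n W Δ t0 J Sb tot : ℝ} {A1 : ℕ} (hC1 : 0 < C1) (hT : 1 ≤ T) (hN : 0 < N) (hB : 0 < B)
    (hn : 0 < n) (hW : 0 < W) (hΔ : 0 < Δ) (ht0 : 0 < t0) (hnW : n * W ≤ 2 * N) (hJ : 2 * J ≤ 8 * N * n / B)
    (hSb : Sb ≤ T * (16 * N ^ 2 / (B * t0) + 8 * N * n / B))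
    (htot : tot ≤ t0 + (2 * J * (C1 * T ^ A1 * (2 * N / n) * Δ) + Sb)) :
    tot ≤ (16 * C1 + 32) * T ^ (A1 + 1) * (N ^ 2 / B * (Δ + 1 / t0 + 1 / W) + t0) := by
  have hT0 : 0 < T := by linarith
  have hTA : 1 ≤ T ^ A1 := one_le_pow₀ hT
  have hTA1 : 1 ≤ T ^ (A1 + 1) := one_le_pow₀ hT
  have e1 : T ^ A1 ≤ T ^ (A1 + 1) := pow_le_pow_right₀ hT (by omega)
  have e2 : T ≤ T ^ (A1 + 1) := by
    calc T = T ^ 1 := (pow_one T).symm
      _ ≤ T ^ (A1 + 1) := pow_le_pow_right₀ hT (by omega)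
  have hNB : 0 < N ^ 2 / B := by positivity
  have e3 : 2 * J * (C1 * T ^ A1 * (2 * N / n) * Δ) ≤ 16 * C1 * T ^ (A1 + 1) * (N ^ 2 / B * Δ) := by
    calc 2 * J * (C1 * T ^ A1 * (2 * N / n) * Δ) ≤ 8 * N * n / B * (C1 * T ^ A1 * (2 * N / n) * Δ) :=
          mul_le_mul_of_nonneg_right hJ (by positivity)
      _ = 16 * C1 * T ^ A1 * (N ^ 2 / B * Δ) := by field_simp; ring
      _ ≤ 16 * C1 * T ^ (A1 + 1) * (N ^ 2 / B * Δ) := by gcongr
  have e4 : 8 * N * n / B ≤ 16 * (N ^ 2 / B * (1 / W)) := by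
    have : n ≤ 2 * N / W := (le_div_iff₀ hW).2 hnW
    calc 8 * N * n / B ≤ 8 * N * (2 * N / W) / B := by gcongr
      _ = 16 * (N ^ 2 / B * (1 / W)) := by field_simp; ring
  have e5 : Sb ≤ 16 * T ^ (A1 + 1) * (N ^ 2 / B * (1 / t0 + 1 / W)) := by
    calc Sb ≤ T * (16 * N ^ 2 / (B * t0) + 8 * N * n / B) := hSb
      _ ≤ T * (16 * (N ^ 2 / B * (1 / t0)) + 16 * (N ^ 2 / B * (1 / W))) := by
          refine mul_le_mul_of_nonneg_left (add_le_add (le_of_eq ?_) e4) hT0.le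
          field_simp
      _ = 16 * T * (N ^ 2 / B * (1 / t0 + 1 / W)) := by ring
      _ ≤ 16 * T ^ (A1 + 1) * (N ^ 2 / B * (1 / t0 + 1 / W)) := by gcongr
  have e6 : t0 ≤ T ^ (A1 + 1) * t0 := le_mul_of_one_le_left ht0.le hTA1
  have p1 : 0 < T ^ (A1 + 1) * (N ^ 2 / B * Δ) := by positivity
  have p2 : 0 < T ^ (A1 + 1) * (N ^ 2 / B * (1 / t0 + 1 / W)) := by positivity
  have p3 : 0 < T ^ (A1 + 1) * t0 := by positivity
  have e7 : (16 * C1 + 32) * T ^ (A1 + 1) * (N ^ 2 / B * (Δ + 1 / t0 + 1 / W) + t0) =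
      (16 * C1 + 32) * (T ^ (A1 + 1) * (N ^ 2 / B * Δ)) +
      (16 * C1 + 32) * (T ^ (A1 + 1) * (N ^ 2 / B * (1 / t0 + 1 / W))) + (16 * C1 + 32) * (T ^ (A1 + 1) * t0) := by ring
  rw [e7]
  nlinarith [mul_pos hC1 p1, mul_pos hC1 p2, mul_pos hC1 p3]

/-- splitting the modulus M0 into its two parts -/
private lemma Mfc_split {M0 A1 A2 : ℕ} (hc : A1.Coprime A2) (hM : M0 ∣ A1 * A2) :
    Nat.gcd M0 A1 * Nat.gcd M0 A2 = M0 := by
  rw [← Nat.Coprime.gcd_mul M0 hc]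
  exact Nat.gcd_eq_left hM

/-- one line j, cut into the classes modulo m -/
private lemma Mfc_cut (h9 : MdcStmt) (m : ℕ) (l : ℤ) (e f : ℤ × ℤ) (a b j : ℤ) (Φ : ℤ → ℂ) (E : ℝ) (hm : 1 ≤ m)
    (hE : ∀ c : ℕ, Dm m l e f c j → ‖∑ t ∈ Ioc ((a - c) / (m : ℤ)) ((b - c) / (m : ℤ)), Φ (c + m * t)‖ ≤ E) :
    ‖∑ i ∈ Ioc a b, (if Dm m l e f i j then Φ i else 0)‖ ≤
      ((#((range m).filter (fun c : ℕ => Dm m l e f (c : ℤ) j)) : ℕ) : ℝ) * E := by
  rw [h9 m a b _ hm]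
  have hD : ∀ (c : ℕ) (t : ℤ), Dm m l e f ((c : ℤ) + m * t) j ↔ Dm m l e f (c : ℤ) j := by
    intro c t
    unfold Dm pt2
    have e1 : j * f.1 + ((c : ℤ) + m * t) * e.1 - l * (j * f.2 + ((c : ℤ) + m * t) * e.2) =
        (j * f.1 + (c : ℤ) * e.1 - l * (j * f.2 + (c : ℤ) * e.2)) + (m : ℤ) * (t * (e.1 - l * e.2)) := by ring
    show (m : ℤ) ∣ j * f.1 + ((c : ℤ) + m * t) * e.1 - l * (j * f.2 + ((c : ℤ) + m * t) * e.2) ↔
      (m : ℤ) ∣ j * f.1 + (c : ℤ) * e.1 - l * (j * f.2 + (c : ℤ) * e.2)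
    rw [e1]
    exact ⟨fun h => (dvd_add_left (Dvd.intro _ rfl)).1 h, fun h => (dvd_add_left (Dvd.intro _ rfl)).2 h⟩
  refine (norm_sum_le _ _).trans ?_
  calc ∑ c ∈ range m, ‖∑ t ∈ Ioc ((a - (c : ℤ)) / (m : ℤ)) ((b - c) / (m : ℤ)),
        (if Dm m l e f ((c : ℤ) + m * t) j then Φ ((c : ℤ) + m * t) else 0)‖
      ≤ ∑ c ∈ range m, (if Dm m l e f (c : ℤ) j then E else 0) := by
        refine sum_le_sum fun c _ => ?_
        by_cases hc : Dm m l e f (c : ℤ) j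
        · rw [if_pos hc]
          refine le_trans (le_of_eq ?_) (hE c hc)
          congr 1
          exact sum_congr rfl fun t _ => if_pos ((hD c t).2 hc)
        · rw [if_neg hc]
          refine le_of_eq ?_
          rw [norm_eq_zero]
          exact sum_eq_zero fun t _ => if_neg fun h => hc ((hD c t).1 h)
    _ = _ := by rw [← sum_filter, sum_const, nsmul_eq_mul]

theorem tMfc (h1 : SLG.LbsStmt) (h2 : SLG.LinStmt) (h4 : SLG.LzeStmt) (h5 : SLG.LalTStmt) (h6 : SLG.LmzStmt)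
    (h7 : SLG.LliTStmt) (h8 : MclStmt) (h3 : MgdStmt) (h9 : MdcStmt) (h10 : MphStmt) : MfcStmt := by
  intro k
  obtain ⟨C1, hC1, A1, hL⟩ := h7 k
  refine ⟨16 * C1 + 32, by linarith, A1 + 1, ?_⟩
  intro X T W Z y Δ N m B w1 w2 GQ G1 G2 t0 l c1 c2 hTau hZ hy hΔ hZΔ hN ht0 hm hB3 hs1 hs2 hl hX hsm hGQ hG1 hG2 hG1w
    hG2w hgo1 hgo2 hZG hWB hWZB hCW2 hk
  have hT : 1 ≤ T := hTau.1
  have hT0 : 0 < T := by linarith
  have hC : (32 : ℝ) ≤ 16 * C1 + 32 := by linarith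
  set C : ℝ := 16 * C1 + 32 with hCdef
  have hC0 : 0 < C := by linarith
  have hZy : 1 ≤ Z * y := by
    have e1 : (1 : ℝ) * 1 ≤ Z * y := mul_le_mul hZ hy zero_le_one (by linarith)
    linarith
  have hZy0 : 0 < Z * y := by linarith
  have hZ0 : 0 < Z := by linarith
  have hW32 : 32 ≤ W := by
    have e1 : C ≤ C * (Z * y) := le_mul_of_one_le_right hC0.le hZy
    linarith
  have hW0 : 0 < W := by linarith
  have hmr : (1 : ℝ) ≤ (m : ℝ) := by exact_mod_cast hm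
  have hm0 : (0 : ℝ) < (m : ℝ) := by linarith
  have hmz : (0 : ℤ) < (m : ℤ) := by exact_mod_cast hm
  -- squarefreeness and coprimality
  have hs1' : Squarefree (m * (B * w1)) := by rwa [← mul_assoc]
  have hs2' : Squarefree (m * (B * w2)) := by rwa [← mul_assoc]
  obtain ⟨hmBw1, -, hsBw1⟩ := Nat.squarefree_mul_iff.1 hs1'
  obtain ⟨hmBw2, -, hsBw2⟩ := Nat.squarefree_mul_iff.1 hs2'
  have hmB : m.Coprime B := hmBw1.coprime_mul_right_right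
  have hmw1 : m.Coprime w1 := hmBw1.coprime_mul_left_right
  have hmw2 : m.Coprime w2 := hmBw2.coprime_mul_left_right
  have hlB : Int.gcd l B = 1 := by
    have e1 : Int.gcd l B ∣ Int.gcd l (m * B : ℕ) := by
      refine Int.dvd_gcd (Int.gcd_dvd_left ..) ((Int.gcd_dvd_right ..).trans ?_)
      push_cast
      exact Dvd.intro_left _ rfl
    rw [hl] at e1
    exact Nat.dvd_one.1 e1
  have hB1w : 1 ≤ m * B * w1 := Nat.pos_of_ne_zero hs1.ne_zero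
  have hsB : Squarefree B := hsBw1.of_mul_left
  have hB : 1 ≤ B := by omega
  have hNr : (1 : ℝ) ≤ (N : ℝ) := by exact_mod_cast hN
  have hBr : (1 : ℝ) ≤ (B : ℝ) := by exact_mod_cast hB
  have ht0r : (1 : ℝ) ≤ (t0 : ℝ) := by exact_mod_cast ht0
  have hWm : 1 ≤ W * m := by
    calc (1 : ℝ) = 1 * 1 := (one_mul 1).symm
      _ ≤ W * m := mul_le_mul (by linarith) hmr zero_le_one hW0.le
  obtain ⟨e, f, P1, P2, hBs, hP1, hP2, hP1e, hP2e, hnWm, hn2B, hZP⟩ :=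
    h5 (W * m) Z B w1 w2 GQ G1 G2 N l hWm hZ hB3 hN hsBw1 hsBw2 hlB hGQ hG1 hG2 hZG hWB hWZB
  have hBw1 : B.Coprime w1 := Nat.coprime_of_squarefree_mul hsBw1
  have hBw2 : B.Coprime w2 := Nat.coprime_of_squarefree_mul hsBw2
  have hP1w2 : P1.Coprime w2 := Nat.Coprime.coprime_dvd_left hP1
    (Nat.Coprime.mul_left (Nat.Coprime.coprime_dvd_left hGQ hBw2) hG1w)
  have hP2B : P2.Coprime (B * w1) := Nat.Coprime.coprime_dvd_left hP2
    (Nat.Coprime.mul_right ((Nat.Coprime.coprime_dvd_right hG2 hBw2).symm) hG2w)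
  have hP12 : P1.Coprime P2 := Nat.Coprime.coprime_dvd_right (hP2.trans hG2) hP1w2
  have hGQ1 : GQ * G1 ∣ B * w1 := mul_dvd_mul hGQ hG1
  have hmP1 : P1.Coprime m := Nat.Coprime.coprime_dvd_left (hP1.trans hGQ1) hmBw1.symm
  have hmP2 : P2.Coprime m := Nat.Coprime.coprime_dvd_left (hP2.trans hG2) hmw2.symm
  obtain ⟨M0, hM0d, hZM0, hM0Z⟩ := h6 Z y (P1 * P2) hZ hy (by push_cast; exact hZP) (fun p hp hpd => by
    refine hsm p hp ?_
    rcases (Nat.Prime.dvd_mul hp).1 hpd with hh | hh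
    · exact ((hh.trans hP1).trans hGQ1).mul_right w2
    · exact Dvd.dvd.mul_left ((hh.trans hP2).trans hG2) (B * w1))
  have hsplit := Mfc_split hP12 hM0d
  have hsplitR : ((Nat.gcd M0 P1 : ℕ) : ℝ) * (Nat.gcd M0 P2 : ℕ) = (M0 : ℝ) := by
    rw [← Nat.cast_mul, hsplit]
  have hD1 : Nat.gcd M0 P1 ∣ P1 := Nat.gcd_dvd_right _ _
  have hD2 : Nat.gcd M0 P2 ∣ P2 := Nat.gcd_dvd_right _ _
  obtain ⟨hnm1, -, -, -, -, -, -⟩ := h1 B l e f hB hBs
  obtain ⟨a, b, hab, hmem, hsum⟩ := h2 B l e f N hB hN hBs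
  have hnr : (1 : ℝ) ≤ (nm e : ℝ) := by exact_mod_cast hnm1
  have hn0 : (0 : ℝ) < (nm e : ℝ) := by linarith
  have hnW : ((nm e : ℝ) * m) * W ≤ 2 * (N : ℝ) := by
    calc ((nm e : ℝ) * m) * W = (nm e : ℝ) * (W * m) := by ring
      _ ≤ _ := hnWm
  have hnmN : (nm e : ℝ) * m ≤ (N : ℝ) := by
    have e1 : ((nm e : ℝ) * m) * 2 ≤ ((nm e : ℝ) * m) * W := mul_le_mul_of_nonneg_left (by linarith) (by positivity)
    linarith
  have hnN : (nm e : ℝ) ≤ (N : ℝ) := le_trans (le_mul_of_one_le_right hn0.le hmr) hnmN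
  have hnNz : nm e ≤ (N : ℤ) := by exact_mod_cast hnN
  set L : ℝ := 2 * (N : ℝ) / ((nm e : ℝ) * m) with hLdef
  have hnm0 : 0 < (nm e : ℝ) * m := by positivity
  have hWL : W ≤ L := by
    rw [hLdef, le_div_iff₀ hnm0, mul_comm]
    exact hnW
  have hZyW : Z * y ≤ W := by
    have e2 : Z * y ≤ C * (Z * y) := le_mul_of_one_le_left hZy0.le (by linarith)
    linarith
  have hZyL : Z * y ≤ L := hZyW.trans hWL
  have hCZy : Z * y ≤ C * (Z * y) := le_mul_of_one_le_left hZy0.le (by linarith)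
  -- the length of a class of a line
  have hlen : ∀ (j : ℤ) (c : ℕ), (((b j - (c : ℤ)) / (m : ℤ) - (a j - (c : ℤ)) / (m : ℤ) : ℤ) : ℝ) ≤ L := by
    intro j c
    have e1 : (b j - (c : ℤ)) / (m : ℤ) * m ≤ b j - c := Int.ediv_mul_le _ hmz.ne'
    have e2 : a j - (c : ℤ) < ((a j - (c : ℤ)) / (m : ℤ) + 1) * m := Int.lt_ediv_add_one_mul_self _ hmz
    have e3 : ((b j - (c : ℤ)) / (m : ℤ) - (a j - (c : ℤ)) / (m : ℤ) - 1) * m < b j - a j := by linarith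
    have e3' : ((b j - (c : ℤ)) / (m : ℤ) - (a j - (c : ℤ)) / (m : ℤ) - 1) * m ≤ b j - a j - 1 := by omega
    have e4 : ((((b j - (c : ℤ)) / (m : ℤ) - (a j - (c : ℤ)) / (m : ℤ) - 1 : ℤ)) : ℝ) * m ≤ ((b j - a j : ℤ) : ℝ) - 1 := by
      exact_mod_cast e3'
    have e5 := (hab j).2
    have e6 : ((((b j - (c : ℤ)) / (m : ℤ) - (a j - (c : ℤ)) / (m : ℤ) - 1 : ℤ)) : ℝ) * m ≤ (N : ℝ) / (nm e : ℝ) := by
      linarith
    have e7 : ((((b j - (c : ℤ)) / (m : ℤ) - (a j - (c : ℤ)) / (m : ℤ) - 1 : ℤ)) : ℝ) ≤ (N : ℝ) / ((nm e : ℝ) * m) := by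
      rw [← div_div, le_div_iff₀ hm0]
      exact e6
    have e8 : (1 : ℝ) ≤ (N : ℝ) / ((nm e : ℝ) * m) := (one_le_div hnm0).2 hnmN
    have e9 : L = (N : ℝ) / ((nm e : ℝ) * m) + (N : ℝ) / ((nm e : ℝ) * m) := by rw [hLdef]; ring
    have e10 : ((((b j - (c : ℤ)) / (m : ℤ) - (a j - (c : ℤ)) / (m : ℤ) - 1 : ℤ)) : ℝ) =
      (((b j - (c : ℤ)) / (m : ℤ) - (a j - (c : ℤ)) / (m : ℤ) : ℤ) : ℝ) - 1 := by push_cast; ring
    rw [e10] at e7
    rw [e9]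
    linarith
  -- sizes
  have hJ0 : 0 ≤ JJ B N e := Int.ediv_nonneg (by positivity) (by positivity)
  have hmBr : (0 : ℝ) < (m : ℝ) * B := by positivity
  have hJr : 2 * ((JJ B N e : ℤ) : ℝ) ≤ 8 * (N : ℝ) * ((nm e : ℝ) * m) / ((m : ℝ) * B) := by
    have e1 : JJ B N e * (B : ℤ) ≤ 4 * (N : ℤ) * nm e := Int.ediv_mul_le _ (by omega)
    have e2 : ((JJ B N e : ℤ) : ℝ) * (B : ℝ) ≤ 4 * (N : ℝ) * (nm e : ℝ) := by exact_mod_cast e1
    rw [le_div_iff₀ hmBr]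
    calc 2 * ((JJ B N e : ℤ) : ℝ) * ((m : ℝ) * B) = 2 * m * (((JJ B N e : ℤ) : ℝ) * (B : ℝ)) := by ring
      _ ≤ 2 * m * (4 * (N : ℝ) * (nm e : ℝ)) := by gcongr
      _ = _ := by ring
  have hnX : 4 * (N : ℝ) * (nm e : ℝ) ≤ X := by
    have e1 : (nm e : ℝ) ≤ 2 * (B : ℝ) := by exact_mod_cast hn2B
    calc 4 * (N : ℝ) * (nm e : ℝ) ≤ 4 * (N : ℝ) * (2 * (B : ℝ)) := mul_le_mul_of_nonneg_left e1 (by linarith)
      _ = 8 * (N : ℝ) * B := by ring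
      _ ≤ X := hX
  have hWN : W ≤ (N : ℝ) := by
    have e1 : W ^ 2 ≤ (W * m) ^ 2 * (B : ℝ) := by
      calc W ^ 2 ≤ (W * m) ^ 2 := pow_le_pow_left₀ hW0.le (le_mul_of_one_le_right hW0.le hmr) 2
        _ ≤ (W * m) ^ 2 * (B : ℝ) := le_mul_of_one_le_right (by positivity) hBr
    exact le_of_sq_le_sq (e1.trans hWB) (by linarith)
  have hNX : (N : ℝ) ≤ X := by
    refine le_trans ?_ hX
    have e1 : (N : ℝ) ≤ (N : ℝ) * B := le_mul_of_one_le_right (by linarith) hBr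
    have e2 : (N : ℝ) * B ≤ 8 * ((N : ℝ) * B) := le_mul_of_one_le_left (by positivity) (by norm_num)
    linarith
  have hbad := h3 X T m B l e f N t0 a b hTau hm hB hN ht0 hmB hBs hnNz hnX hab
  obtain ⟨hz1, -⟩ := h4 B e f N t0 a b hB hN hnm1 hmem
  obtain ⟨m1, -, -, -, -, hcl⟩ := h8 m B l e f hm hB hmB hBs
  have hcl2 := (hcl (JJ B N e) hJ0).2
  obtain ⟨c1', hc1', hph⟩ := h10 c1 m (B * w1) hs1'
  -- the sum by lines
  have key : ∑ n1 ∈ Ioc N (2 * N), ∑ n2 ∈ Ioc N (2 * N), (if ((m * B : ℕ) : ℤ) ∣ (n1 : ℤ) - l * n2 ∧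
      Nat.gcd n1 n2 ≤ t0 then t1g c1 (m * B * w1) n1 * t1g c2 w2 n2 else 0) =
      ∑ j ∈ Icc (-(JJ B N e)) (JJ B N e), ∑ i ∈ Ioc (a j) (b j),
        (if Int.gcd (pt2 e f i j).1 (pt2 e f i j).2 ≤ t0 then
          (if Dm m l e f i j then tz c1 (m * B * w1) (pt2 e f i j).1 * tz c2 w2 (pt2 e f i j).2 else 0) else 0) := by
    refine Eq.trans ?_ ((hsum (fun n => if Int.gcd n.1 n.2 ≤ t0 then (if (m : ℤ) ∣ n.1 - l * n.2 then
      tz c1 (m * B * w1) n.1 * tz c2 w2 n.2 else 0) else 0)).trans ?_)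
    swap
    · refine sum_congr rfl fun j _ => sum_congr rfl fun i _ => ?_
      by_cases hd : Dm m l e f i j
      · rw [if_pos hd, if_pos (show (m : ℤ) ∣ (pt2 e f i j).1 - l * (pt2 e f i j).2 from hd)]
      · rw [if_neg hd, if_neg (show ¬ (m : ℤ) ∣ (pt2 e f i j).1 - l * (pt2 e f i j).2 from hd)]
    refine sum_congr rfl fun n1 _ => sum_congr rfl fun n2 _ => ?_
    simp only [Int.gcd_natCast_natCast, Mfc_tz]
    have hdv : ((m * B : ℕ) : ℤ) ∣ (n1 : ℤ) - l * n2 ↔ (m : ℤ) ∣ (n1 : ℤ) - l * n2 ∧ (B : ℤ) ∣ (n1 : ℤ) - l * n2 := by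
      constructor
      · intro h
        push_cast at h
        exact ⟨(Dvd.intro _ rfl).trans h, (Dvd.intro_left _ rfl).trans h⟩
      · rintro ⟨ha, hb⟩
        push_cast
        refine IsCoprime.mul_dvd ?_ ha hb
        exact Nat.isCoprime_iff_coprime.2 hmB
    by_cases p1 : (B : ℤ) ∣ (n1 : ℤ) - l * n2
    · by_cases p2 : Nat.gcd n1 n2 ≤ t0
      · by_cases p3 : (m : ℤ) ∣ (n1 : ℤ) - l * n2
        · rw [if_pos ⟨hdv.2 ⟨p3, p1⟩, p2⟩, if_pos p1, if_pos p2, if_pos p3]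
        · rw [if_neg (fun h => p3 (hdv.1 h.1).1), if_pos p1, if_pos p2, if_neg p3]
      · rw [if_neg (fun h => p2 h.2), if_pos p1, if_neg p2]
    · rw [if_neg (fun h => p1 (hdv.1 h.1).2), if_neg p1]
  rw [key, ← sum_filter_add_sum_filter_not _ (fun j => j ≠ 0)]
  have hne : (Icc (-(JJ B N e)) (JJ B N e)).filter (fun j => ¬ j ≠ 0) = {0} := by
    ext j
    rw [mem_filter, mem_singleton, mem_Icc]
    constructor
    · exact fun h => not_not.1 h.2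
    · rintro rfl
      exact ⟨⟨by omega, hJ0⟩, fun h => h rfl⟩
  rw [hne, sum_singleton]
  have hnorm : ∀ i j : ℤ, ‖(if Dm m l e f i j then tz c1 (m * B * w1) (pt2 e f i j).1 * tz c2 w2 (pt2 e f i j).2
      else 0)‖ ≤ 1 := by
    intro i j
    split_ifs
    · exact Mfc_prod _ _ _ _ _ _
    · rw [norm_zero]
      exact zero_le_one
  -- the line 0
  have hzero : ‖∑ i ∈ Ioc (a 0) (b 0), (if Int.gcd (pt2 e f i 0).1 (pt2 e f i 0).2 ≤ t0 then
      (if Dm m l e f i 0 then tz c1 (m * B * w1) (pt2 e f i 0).1 * tz c2 w2 (pt2 e f i 0).2 else 0) else 0)‖ ≤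
      (t0 : ℝ) := by
    rw [← sum_filter]
    refine (norm_sum_le _ _).trans ?_
    refine (sum_le_card_nsmul _ _ 1 fun i _ => hnorm i 0).trans ?_
    rw [nsmul_eq_mul, mul_one]
    exact_mod_cast hz1
  -- one line
  have hline : ∀ j : ℤ, ‖∑ i ∈ Ioc (a j) (b j), (if Int.gcd (pt2 e f i j).1 (pt2 e f i j).2 ≤ t0 then
      (if Dm m l e f i j then tz c1 (m * B * w1) (pt2 e f i j).1 * tz c2 w2 (pt2 e f i j).2 else 0) else 0)‖ ≤
      ((#((range m).filter (fun c : ℕ => Dm m l e f (c : ℤ) j)) : ℕ) : ℝ) * (C1 * T ^ A1 * L * Δ) +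
      ((#((Ioc (a j) (b j)).filter (fun i => (Dm m l e f i j ∧ Int.gcd (pt2 e f i j).1 (m * B : ℕ) = 1) ∧
        t0 < Int.gcd (pt2 e f i j).1 (pt2 e f i j).2)) : ℕ) : ℝ) := by
    intro j
    refine Mfc_line (fun i => if Dm m l e f i j then tz c1 (m * B * w1) (pt2 e f i j).1 * tz c2 w2 (pt2 e f i j).2
      else 0) (fun i => Int.gcd (pt2 e f i j).1 (pt2 e f i j).2)
      (fun i => Dm m l e f i j ∧ Int.gcd (pt2 e f i j).1 (m * B : ℕ) = 1) (Ioc (a j) (b j)) t0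
      (((#((range m).filter (fun c : ℕ => Dm m l e f (c : ℤ) j)) : ℕ) : ℝ) * (C1 * T ^ A1 * L * Δ))
      (fun i => hnorm i j) (fun i _ hi => ?_) ?_
    · by_cases hd : Dm m l e f i j
      · rw [if_pos hd] at hi
        exact ⟨hd, Mfc_zero hB1w (left_ne_zero_of_mul hi)⟩
      · rw [if_neg hd] at hi
        exact absurd rfl hi
    · refine Mfc_cut h9 m l e f (a j) (b j) j
        (fun i => tz c1 (m * B * w1) (pt2 e f i j).1 * tz c2 w2 (pt2 e f i j).2) _ hm (fun c hc => ?_)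
      obtain ⟨K, hK, hKt⟩ := hph (j * f.1 + (c : ℤ) * e.1) e.1
      have e1 : ∑ t ∈ Ioc ((a j - (c : ℤ)) / (m : ℤ)) ((b j - c) / (m : ℤ)),
          tz c1 (m * B * w1) (pt2 e f ((c : ℤ) + m * t) j).1 * tz c2 w2 (pt2 e f ((c : ℤ) + m * t) j).2 =
          K * ∑ t ∈ Ioc ((a j - (c : ℤ)) / (m : ℤ)) ((b j - c) / (m : ℤ)),
            tz c1' (B * w1) ((j * f.1 + (c : ℤ) * e.1) + t * (m * e.1)) *
              tz c2 w2 ((j * f.2 + (c : ℤ) * e.2) + t * (m * e.2)) := by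
        rw [mul_sum]
        refine sum_congr rfl fun t _ => ?_
        have e2 : (pt2 e f ((c : ℤ) + m * t) j).1 = (j * f.1 + (c : ℤ) * e.1) + t * (m * e.1) := by
          show j * f.1 + ((c : ℤ) + m * t) * e.1 = _
          ring
        have e3 : (pt2 e f ((c : ℤ) + m * t) j).2 = (j * f.2 + (c : ℤ) * e.2) + t * (m * e.2) := by
          show j * f.2 + ((c : ℤ) + m * t) * e.2 = _
          ring
        rw [e2, e3, mul_assoc m B w1, hKt t, mul_assoc]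
      show ‖∑ t ∈ Ioc ((a j - (c : ℤ)) / (m : ℤ)) ((b j - c) / (m : ℤ)),
          tz c1 (m * B * w1) (pt2 e f ((c : ℤ) + m * t) j).1 * tz c2 w2 (pt2 e f ((c : ℤ) + m * t) j).2‖ ≤ _
      rw [e1, norm_mul]
      have hpm : ∀ {p : ℕ} {u : ℤ}, p.Prime → ¬ p ∣ m → ¬ (p : ℤ) ∣ u → ¬ (p : ℤ) ∣ (m : ℤ) * u := by
        intro p u hp h1 h2 h3
        rcases (Nat.prime_iff_prime_int.1 hp).dvd_or_dvd h3 with h4 | h4
        · exact h1 (by exact_mod_cast h4)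
        · exact h2 h4
      have hnp : ∀ {p P : ℕ}, p.Prime → P.Coprime m → p ∣ P → ¬ p ∣ m := by
        intro p P hp hc h1 h2
        have h3 := Nat.dvd_gcd h1 h2
        rw [hc] at h3
        exact hp.one_lt.ne' (Nat.dvd_one.1 h3)
      have key2 := hL X T L Z y Δ B w1 w2 (Nat.gcd M0 P1) (Nat.gcd M0 P2) c1' c2 (j * f.1 + (c : ℤ) * e.1)
        (j * f.2 + (c : ℤ) * e.2) (m * e.1) (m * e.2) ((a j - (c : ℤ)) / (m : ℤ)) ((b j - c) / (m : ℤ))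
        hTau hZ hy hΔ hZΔ hsBw1 hsBw2 hsm
        ((hD1.trans hP1).trans hGQ1) ((hD2.trans hP2).trans hG2)
        (Nat.Coprime.coprime_dvd_left hD1 hP1w2) (Nat.Coprime.coprime_dvd_left hD2 hP2B)
        (by rw [hsplitR]; exact hZM0) (by rw [hsplitR]; exact hM0Z)
        (fun p hp hpd => ⟨(hgo1 p hp ((hpd.trans hD1).trans hP1)).1,
          fun h => (hgo1 p hp ((hpd.trans hD1).trans hP1)).2
            ((hc1' p hp (((hpd.trans hD1).trans hP1).trans hGQ1)).1 h),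
          hpm hp (hnp hp hmP1 (hpd.trans hD1)) (hP1e p hp (hpd.trans hD1))⟩)
        (fun p hp hpd => ⟨(hgo2 p hp ((hpd.trans hD2).trans hP2)).1, (hgo2 p hp ((hpd.trans hD2).trans hP2)).2,
          hpm hp (hnp hp hmP2 (hpd.trans hD2)) (hP2e p hp (hpd.trans hD2))⟩)
        (by rw [hsplitR]; exact hM0Z.trans (hZyW.trans (hWN.trans hNX))) hZyL
        (hk.trans (pow_le_pow_left₀ (by positivity) (by
          rw [div_le_div_iff₀ (by positivity) hZy0]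
          exact mul_le_mul hWL hCZy hZy0.le (by linarith)) k))
        (hlen j c)
      calc ‖K‖ * _ ≤ 1 * (C1 * T ^ A1 * L * Δ) := mul_le_mul hK key2 (norm_nonneg _) zero_le_one
        _ = _ := one_mul _
  have hEpos : 0 ≤ C1 * T ^ A1 * L * Δ := by
    have : 0 < L := by linarith
    positivity
  have hrest : ‖∑ j ∈ (Icc (-(JJ B N e)) (JJ B N e)).filter (fun j => j ≠ 0), ∑ i ∈ Ioc (a j) (b j),
      (if Int.gcd (pt2 e f i j).1 (pt2 e f i j).2 ≤ t0 then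
          (if Dm m l e f i j then tz c1 (m * B * w1) (pt2 e f i j).1 * tz c2 w2 (pt2 e f i j).2 else 0) else 0)‖ ≤
      2 * ((JJ B N e : ℤ) : ℝ) * (C1 * T ^ A1 * L * Δ) +
      ∑ j ∈ (Icc (-(JJ B N e)) (JJ B N e)).filter (fun j => j ≠ 0), ((#((Ioc (a j) (b j)).filter (fun i =>
        (Dm m l e f i j ∧ Int.gcd (pt2 e f i j).1 (m * B : ℕ) = 1) ∧
          t0 < Int.gcd (pt2 e f i j).1 (pt2 e f i j).2)) : ℕ) : ℝ) := by
    refine (norm_sum_le _ _).trans ((sum_le_sum fun j _ => hline j).trans ?_)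
    rw [sum_add_distrib, ← sum_mul]
    exact add_le_add (mul_le_mul_of_nonneg_right hcl2 hEpos) le_rfl
  refine Mfc_num (n := (nm e : ℝ) * m) hC1 hT (by linarith) hmBr hnm0 hW0 hΔ (by linarith) hnW hJr (hbad.trans ?_) ?_
  · refine mul_le_mul_of_nonneg_left (add_le_add (le_refl _) (le_of_eq ?_)) hT0.le
    field_simp
  · refine (norm_add_le _ _).trans ?_
    rw [add_comm]
    exact add_le_add hzero hrest

end Pool.Agent.Lib.ND
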