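import Pool.Agent.Lib.NLE.AllM
import Pool.Agent.Lib.ND.Mfc
import Pool.Agent.Lib.ND.Pbc
import Pool.Agent.Lib.ND.NumD
import Pool.Agent.Lib.ND.BinD
import Pool.Agent.Lib.ND.BbbD
import Pool.Agent.Lib.ND.BdrD
import Pool.Agent.Lib.ND.BdsD
import Pool.Agent.Lib.ND.BfiD
import Pool.Agent.Lib.ND.EndD

/-! MP_00e23e_nt, project ND (all classes, densely divisible moduli, 5 μ + 12 κ < 1): everything without hypotheses (glue;
helper28). -/

namespace Pool.Agent.Lib.ND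

/-- the lattice theorem -/
theorem aMfc : MfcStmt :=
  tMfc SLG.tLbs SLG.aLin SLG.tLze SLG.aLalT SLG.tLmz SLG.aLliT NM.tMcl (NM.tMgd SLG.tLbs NM.tMcl) NM.tMdc
    (NM.tMph SLG.aGsp)

/-- the bound of the sums TG -/
theorem aBinD : BinDStmt :=
  tBinD NLS.aSecN (tPbTc SLN.tPhN SLG.aLtr) (tPbMc SLN.tPhN aMfc) tNumD

/-- the bilinear theorem -/
theorem aBfiD : BfiDStmt :=
  tBfiD (tBdsD (tBdrD (tBbbD (NLB.tBdiN SLH.tDspT (NLB.tBgaN SLB.tBdh)) NMB.tBncM)) MK.tFsp) NLB.tBorN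
    (NMB.tBgeM MI.tBid (SL.tBrg MI.tBph) (ML.tBlg MI.tLrgAll) MI.tLrgAll)

/-- THE THEOREM for the von Mangoldt function: all classes, densely divisible moduli, 5 μ + 12 κ < 1 -/
theorem aEndD : EndDStmt := tEndD NMA.tMfiAll aBfiD aBinD

end Pool.Agent.Lib.ND
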