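import Pool.Agent.Lib.NMB.Spec
import Pool.Agent.Lib.SLN.DefM

/-!
MP_00e23e_nt, project ND (all classes, densely divisible moduli with an arbitrary divisor m ≤ x^μ, the other primes ≤ x^κ,
5 μ + 12 κ < 1; helper28, helper83), definitions. The splitting by the largest prime of r/ρ r (project NLM) is replaced by an average over
colourings of the primes, so the primes of r/ρ r need not be smaller than those of s.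

Choice: w = (1 - 5μ - 12κ)/100, l = μ + 2κ + w, ν = max (1/6 + w) (l + w), θ = 2 ν. If r ≤ x^(l+κ), then ρ = r is allowed. HgN, Qn, epM, BlkM are those of NLB, NMB
(BlkM with κ := ε: r is located by the density of q up to the factor x^ε).
-/

namespace Pool.Agent.Lib.ND

open Finset Pool.Agent.Lib.EH3 Pool.Agent.Lib.TB Pool.Agent.Results.MP_00e23e_nt Pool.Agent.Lib.MI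
open Pool.Agent.Lib.MX (Bd Mz Bd_nonneg Bd_mono rp_le rn_le log_le_T Tau_x)

/-- sizes and colours of one tuple (ρ q, s1, s2): the primes of q are in c, those of s1, s2 are not in c, all are ≤ y -/
def SuC (y : ℝ) (c : Finset ℕ) (R S R0 ρ q s1 s2 : ℕ) : Prop :=
  (R0 < ρ ∧ ρ ≤ 2 * R0) ∧ (R < ρ * q ∧ ρ * q ≤ 2 * R) ∧ (S < s1 ∧ s1 ≤ 2 * S) ∧ (S < s2 ∧ s2 ≤ 2 * S) ∧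
  (∀ p : ℕ, p.Prime → p ∣ q → p ∈ c) ∧ (∀ p : ℕ, p.Prime → p ∣ s1 * s2 → p ∉ c) ∧
  ∀ p : ℕ, p.Prime → p ∣ q * s1 * s2 → (p : ℝ) ≤ y

/-- PAIR BOUND, trivial part (SLN.PbTStmt with the colour c). -/
def PbTcStmt : Prop := ∀ (a : ℕ → ℕ → ℤ) (y : ℝ) (c : Finset ℕ) (g R S N R0 t0 ρ q q' s1 s2 s1' s2' : ℕ) (h h' : ℤ),
  1 ≤ R0 → 1 ≤ R → 1 ≤ N → SuC y c R S R0 ρ q s1 s2 → SuC y c R S R0 ρ q' s1' s2' → 8 * R ^ 2 * g ≤ R0 * N ^ 2 →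
  ‖SLN.PS a g N t0 h (ρ * q) s1 s2 h' (ρ * q') s1' s2'‖ ≤
    (32 * ((N : ℝ) ^ 2 * R0 / (g * (R : ℝ) ^ 2)) + t0) * (Nat.gcd q q' : ℝ)

/-- The lattice theorem NM.MfiStmt with C (Z y) ≤ W in place of C (Z y)^2 ≤ W (the proof of NM.tMfi uses no more). -/
def MfcStmt : Prop := ∀ k : ℕ, ∃ C : ℝ, 1 ≤ C ∧ ∃ A : ℕ, ∀ (X T W Z y Δ : ℝ) (N m B w1 w2 GQ G1 G2 t0 : ℕ)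
    (l c1 c2 : ℤ), Tau X T → 1 ≤ Z → 1 ≤ y → 0 < Δ → 1 ≤ Z * Δ ^ (2 ^ (k + 1)) → 1 ≤ N → 1 ≤ t0 → 1 ≤ m → 3 ≤ B →
  Squarefree (m * B * w1) → Squarefree (m * B * w2) → Int.gcd l (m * B : ℕ) = 1 → 8 * (N : ℝ) * B ≤ X →
  (∀ p : ℕ, p.Prime → p ∣ B * w1 * w2 → (p : ℝ) ≤ y) → GQ ∣ B → G1 ∣ w1 → G2 ∣ w2 → G1.Coprime w2 → G2.Coprime w1 →
  (∀ p : ℕ, p.Prime → p ∣ GQ * G1 → 2 ^ k < p ∧ ¬ (p : ℤ) ∣ c1) →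
  (∀ p : ℕ, p.Prime → p ∣ G2 → 2 ^ k < p ∧ ¬ (p : ℤ) ∣ c2) →
  Z ^ 2 ≤ (GQ : ℝ) * G1 * G2 → (W * m) ^ 2 * (B : ℝ) ≤ (N : ℝ) ^ 2 →
  (W * m * Z * B) ^ 2 ≤ (N : ℝ) ^ 2 * GQ * (GQ * G1 * G2) → C * (Z * y) ≤ W →
  (B : ℝ) * w1 * w2 ≤ (W / (C * (Z * y))) ^ k →
  ‖∑ n1 ∈ Ioc N (2 * N), ∑ n2 ∈ Ioc N (2 * N), (if ((m * B : ℕ) : ℤ) ∣ (n1 : ℤ) - l * n2 ∧ Nat.gcd n1 n2 ≤ t0 then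
    t1g c1 (m * B * w1) n1 * t1g c2 w2 n2 else 0)‖ ≤
    C * T ^ A * ((N : ℝ) ^ 2 / ((m : ℝ) * B) * (Δ + 1 / t0 + 1 / W) + t0)

/-- PAIR BOUND for far pairs (SLN.PbMStmt with the colour c, C (Z y) ≤ W). -/
def PbMcStmt : Prop := ∀ k : ℕ, ∃ C : ℝ, 1 ≤ C ∧ ∃ A : ℕ, ∀ (X T W W0 Z y Δ : ℝ) (a : ℕ → ℕ → ℤ) (c : Finset ℕ)
    (g R S N H R0 t0 m ρ q q' s1 s2 s1' s2' : ℕ) (h h' : ℤ), Tau X T →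
  (1 ≤ g ∧ 2 ≤ R ∧ 1 ≤ S ∧ 1 ≤ N ∧ 1 ≤ H ∧ 1 ≤ R0 ∧ R0 ≤ R ∧ R ≤ N) → 1 ≤ t0 → m ∣ ρ → 3 * m ≤ R →
  (2 * (R : ℝ) * (S : ℝ) ^ 2 * N * H) ^ 12 ≤ X → 1 ≤ Z → 1 ≤ y → 0 < Δ → 1 ≤ Z * Δ ^ (2 ^ (k + 1)) →
  SuC y c R S R0 ρ q s1 s2 → SuC y c R S R0 ρ q' s1' s2' → (∀ p : ℕ, p.Prime → p ∣ ρ / m → (p : ℝ) ≤ y) →
  (h ≠ 0 ∧ |h| ≤ (H : ℤ)) → (h' ≠ 0 ∧ |h'| ≤ (H : ℤ)) → W0 ≤ (SLN.Wn (SLN.An g q s1 s2) (SLN.An g q' s1' s2') : ℝ) →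
  4 * W ^ 2 * (R : ℝ) ^ 2 * g * m ≤ R0 * (N : ℝ) ^ 2 → C * (W ^ 2 * Z ^ 2 * (g : ℝ) ^ 2 * (H : ℝ) ^ 4) ≤ W0 →
  C * (Z * y) ≤ W → 64 * (R : ℝ) ^ 2 * (S : ℝ) ^ 4 ≤ (R0 : ℝ) * (W / (C * (Z * y))) ^ k →
  ‖SLN.PS a g N t0 h (ρ * q) s1 s2 h' (ρ * q') s1' s2'‖ ≤
    C * T ^ A * ((N : ℝ) ^ 2 * R0 / (g * (R : ℝ) ^ 2) * (Δ + 1 / t0 + 1 / W) + t0) * (Nat.gcd q q' : ℝ)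

/-- the parameters: m ≤ x^μ, the other primes ≤ x^κ, N ∈ [x^ν, x^θ], ρ ~ x^l -/
def ParD (μ κ ν θ l w δ ε : ℝ) : Prop := (0 ≤ μ ∧ 0 ≤ κ ∧ 0 < w ∧ μ + 2 * κ + w ≤ l ∧ l + w ≤ ν) ∧
  (2 * ν ≤ θ ∧ 1 / 3 ≤ θ ∧ 2 * θ + l + 2 * κ + w ≤ 1) ∧ (0 ≤ δ ∧ δ ≤ ε) ∧ 0 < ε ∧ 100000 * ε ≤ w

/-- the parameters of NMB (with κ := ε); so NMB.BncMStmt, NMB.BgeMStmt can be used -/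
theorem ParD.toM {μ κ ν θ l w δ ε : ℝ} (h : ParD μ κ ν θ l w δ ε) : NMB.ParM μ ν θ l w δ ε ε := by
  obtain ⟨⟨h1, h2, h3, h4, h5⟩, ⟨h6, h7, h8⟩, h9, h10, h11⟩ := h
  exact ⟨⟨h1, h3, by linarith, by linarith⟩, ⟨h6, h7, by linarith⟩, h9, ⟨h10, le_refl _⟩, h11⟩

/-- the data of the pairs (r, s) ∈ P: reduced classes a r s, the divisor ρ r of r with a divisor m ≤ x^μ, the primes of ρ r/m, of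
s and of r/ρ r are ≤ x^κ -/
def PrD (μ κ l x : ℝ) (a : ℕ → ℕ → ℤ) (ρ : ℕ → ℕ) (R S R0 : ℕ) (P : Finset (ℕ × ℕ)) : Prop :=
  (x ^ l ≤ 2 * (R0 : ℝ) ∧ (R0 : ℝ) ≤ x ^ (l + κ) ∧ R0 ≤ R) ∧
  ∀ w' ∈ P, (R < w'.1 ∧ w'.1 ≤ 2 * R ∧ S < w'.2 ∧ w'.2 ≤ 2 * S ∧ Squarefree (w'.1 * w'.2) ∧
      Int.gcd (a w'.1 w'.2) ((w'.1 * w'.2 : ℕ) : ℤ) = 1) ∧
    (ρ w'.1 ∣ w'.1 ∧ R0 < ρ w'.1 ∧ ρ w'.1 ≤ 2 * R0) ∧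
    (∃ m : ℕ, m ∣ ρ w'.1 ∧ (m : ℝ) ≤ x ^ μ ∧ ∀ p : ℕ, p.Prime → p ∣ ρ w'.1 / m → (p : ℝ) ≤ x ^ κ) ∧
    (∀ p : ℕ, p.Prime → p ∣ w'.2 → (p : ℝ) ≤ x ^ κ) ∧
    ∀ p : ℕ, p.Prime → p ∣ w'.1 / ρ w'.1 → (p : ℝ) ≤ x ^ κ

/-- the bound of the sums TG for all g ≤ x^(8ε) -/
def BiDStmt (μ κ ν θ l w δ ε : ℝ) : Prop := ∃ (C C0 x0 : ℝ) (A : ℕ), 0 < C ∧ 0 ≤ C0 ∧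
  ∀ (x T : ℝ) (a : ℕ → ℕ → ℤ) (ρ : ℕ → ℕ) (g M N R S R0 Hm : ℕ) (P : Finset (ℕ × ℕ)), x0 ≤ x →
  Tau (x ^ (30 : ℝ)) T → NMB.BlkM ν θ δ ε ε x M N R S → 1 ≤ R → R ≤ N → 1 ≤ g → (g : ℝ) ≤ x ^ (8 * ε) →
  (Hm : ℝ) ≤ x ^ (31 * ε) → (2 * (R : ℝ) * (S : ℝ) ^ 2 * N * Hm) ^ 12 ≤ x ^ (30 : ℝ) → PrD μ κ l x a ρ R S R0 P →
  NLB.HgN a g R S N Hm ⌊x ^ (w / 4)⌋₊ P (C * T ^ A) (C0 * x ^ (-(30 * ε)))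

/-- FINAL STATEMENT of the T-chapter (module BinD, helper28): for every choice of the parameters there is e0 > 0 such that the bound
holds for all δ ≤ ε ≤ e0. -/
def BinDStmt : Prop := ∀ μ κ ν θ l w : ℝ, 0 < w → ∃ e0 : ℝ, 0 < e0 ∧ ∀ δ ε : ℝ, ε ≤ e0 →
  ParD μ κ ν θ l w δ ε → BiDStmt μ κ ν θ l w δ ε

/-- Module NumD (theorem tNumD; pure numbers). Uses: nothing. MODEL: Lib/NMB/NumM.lean.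
Changes against NumM: κ in BlkM is ε; y = x^κ in place of x^(w/32), W = x^(κ+w/4) in place of x^(w/4) (but t0 = ⌊x^(w/4)⌋ and epM as before), W0 = x^(2κ+w) in place of x^w, Z = x^(w/16); no factor (⌊x^κ⌋ + 1)^2.
Proof. k = ⌈40/w⌉, σ = (w/16)/2^(k+1), e0 = min (σ/1000) (w/100000). δ ≤ ε ≤ e0. x large (depending on all parameters and C2). R ≥ R0 ≥ x^l/2. S ≥ x^(1/2-ε/2)/(4R) ≥ x^(1/2-θ)/4. 2 R g ≤ 2 N x^(-2ε) ≤ N. Z Δ^(2^(k+1)) = 1.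
4 W^2R^2g x^μ ≤ 4 x^(2κ+w/2-20ε+8ε+μ) N^2 ≤ x^l N^2/2 ≤ R0 N^2 (μ + 2κ + w ≤ l); 8 R^2 g ≤ R0 N^2. C2 W^2Z^2g^2H^4 ≤ C2 x^(2κ+w/2+w/8+16ε+124ε) ≤ x^(2κ+w). C2 Z y = C2 x^(κ+w/16) ≤ x^(κ+w/4). W/(C2 Z y) = x^(3w/16)/C2 ≥ x^(w/8); its k-th power ≥ x^5 ≥ 64 x^(2+4δ) ≥ 64 (R S)^2 S^2.
8 R S^2 ≤ 4 (2 R S^2 N H) ≤ (2 R S^2 N H)^12 ≤ x^30. t0 ≤ x^(w/4) ≤ x^l x^(12ε)/2 ≤ Qn; epM ≤ 6 x^(-σ), epM ≥ x^(-σ) as in NumM. R0 sqrt(W0)/(epM S^2) ≤ 16 x^(l+κ+κ+w/2+σ-1+2θ) ≤ 16 x^(σ-w/2) ≤ 16 x^(-σ); total ≤ 22 x^(-σ) ≤ 100 x^(-30ε) (30ε ≤ σ). -/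
def NumDStmt : Prop := ∀ μ κ ν θ l w : ℝ, 0 < w → ∃ (k : ℕ) (σ e0 : ℝ), 0 < σ ∧ 0 < e0 ∧ ∀ δ ε C2 : ℝ, ε ≤ e0 →
  ParD μ κ ν θ l w δ ε → 1 ≤ C2 →
  ∃ x0 : ℝ, 1 ≤ x0 ∧ ∀ (x : ℝ) (g H M N R S R0 : ℕ), x0 ≤ x → NMB.BlkM ν θ δ ε ε x M N R S → 1 ≤ R → 1 ≤ g →
  (g : ℝ) ≤ x ^ (8 * ε) → 1 ≤ H → (H : ℝ) ≤ x ^ (31 * ε) → x ^ l ≤ 2 * (R0 : ℝ) →
  (R0 : ℝ) ≤ x ^ (l + κ) → R0 ≤ R → (2 * (R : ℝ) * (S : ℝ) ^ 2 * N * H) ^ 12 ≤ x ^ (30 : ℝ) →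
  (2 ≤ R ∧ 1 ≤ S ∧ 1 ≤ N ∧ 1 ≤ R0 ∧ R0 ≤ R ∧ R ≤ N ∧ 1 ≤ ⌊x ^ (w / 4)⌋₊ ∧ 2 * R * g ≤ N ∧
    8 * R ^ 2 * g ≤ R0 * N ^ 2 ∧ 8 * ((R : ℝ) * (S : ℝ) ^ 2) ≤ x ^ (30 : ℝ)) ∧
  (1 ≤ x ^ (2 * κ + w) ∧ 1 ≤ x ^ (w / 16) ∧ 1 ≤ x ^ κ ∧ x ^ (w / 4) ≤ x ^ (κ + w / 4) ∧ 0 < x ^ (-σ) ∧
    1 ≤ x ^ (w / 16) * (x ^ (-σ)) ^ (2 ^ (k + 1))) ∧
  4 * (x ^ (κ + w / 4)) ^ 2 * (R : ℝ) ^ 2 * g * x ^ μ ≤ R0 * (N : ℝ) ^ 2 ∧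
  C2 * ((x ^ (κ + w / 4)) ^ 2 * (x ^ (w / 16)) ^ 2 * (g : ℝ) ^ 2 * (H : ℝ) ^ 4) ≤ x ^ (2 * κ + w) ∧
  C2 * (x ^ (w / 16) * x ^ κ) ≤ x ^ (κ + w / 4) ∧
  64 * (R : ℝ) ^ 2 * (S : ℝ) ^ 4 ≤
    (R0 : ℝ) * (x ^ (κ + w / 4) / (C2 * (x ^ (w / 16) * x ^ κ))) ^ k ∧
  (⌊x ^ (w / 4)⌋₊ : ℝ) ≤ NLB.Qn g R N R0 ∧
  (R0 : ℝ) * Real.sqrt (x ^ (2 * κ + w)) / (NMB.epM w σ x g R N R0 * (S : ℝ) ^ 2) +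
    NMB.epM w σ x g R N R0 ≤ 100 * x ^ (-(30 * ε))

end Pool.Agent.Lib.ND
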