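import Pool.Agent.Lib.ND.Def

/-!
MP_00e23e_nt, project ND (densely divisible moduli, 5 μ + 12 κ < 1; helper28, helper83): modules Pbc, NumD, BinD (statements in ND/Def.lean),
BbbD, BdrD, BdsD, BfiD (copies of Lib/NMB) and EndD.

RULES. Module X: file Pool/Agent/Lib/ND/X.lean, first line `import Pool.Agent.Lib.ND.Spec`, then `namespace Pool.Agent.Lib.ND`
and the two `open` lines below; private lemmas with names starting with X_, final theorem `theorem tX (h1 : AStmt) ... : XStmt`; the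
statements listed under Uses are hypotheses of your theorem, in this order. MODEL file: copy it and change it. Never use congr!.
Every module below 60 s. Dictionary for the MODELS (Lib/NMB): ParM μ ν θ l w δ κ ε → ParD μ κ ν θ l w δ ε, BlkM .. δ κ ε → NMB.BlkM ..
δ ε ε (r is located up to the factor x^ε, not x^κ), PrM → PrD, DqM → DqD, BiMStmt → BiDStmt, x^(w/32) → x^κ; there is no order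
condition between the primes of r/ρ and of q/r. ParD.toM gives NMB.ParM μ ν θ l w δ ε ε, so NMB.BncMStmt and NMB.BgeMStmt are used
as they are. From ParD: 10^5 ε ≤ w, 0 < ε, δ ≤ ε, μ + 2κ + w ≤ l, l + w ≤ ν, 2ν ≤ θ, 1/3 ≤ θ, 2θ + l + 2κ + w ≤ 1 (so θ ≤ 1/2 - w).

Module Pbc (file ND/Pbc.lean, two theorems tPbTc : SLN.PhNStmt → SLG.LtrStmt → PbTcStmt and tPbMc : SLN.PhNStmt → MfcStmt →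
PbMcStmt). MODEL: Lib/NM/PbM.lean (all of it) and the 30 lines of SLN.tPbT in Lib/SLN/PbF.lean. The only change: in the step sep of
tPbM, p ∣ q q' gives p ∈ c, p ∣ s1 s2 (or s1' s2') gives p ∉ c (SuC in place of SuP).
-/

namespace Pool.Agent.Lib.ND

open Finset Pool.Agent.Lib.EH3 Pool.Agent.Lib.TB Pool.Agent.Results.MP_00e23e_nt Pool.Agent.Lib.MI
open Pool.Agent.Lib.MX (Bd Mz Bd_nonneg Bd_mono rp_le rn_le log_le_T Tau_x)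

/-- Module BbbD (theorem tBbbD; one block). Uses: NLB.BdiNStmt, NMB.BncMStmt. MODEL: Lib/NMB/BbbM.lean. -/
def BbbDStmt : Prop := ∀ μ κ ν θ l w δ ε : ℝ, ParD μ κ ν θ l w δ ε → BiDStmt μ κ ν θ l w δ ε →
  ∃ (η C x0 : ℝ) (A0 : ℕ), 0 < η ∧ 0 ≤ C ∧
  ∀ (x T z : ℝ) (a : ℕ → ℕ → ℤ) (ρ : ℕ → ℕ) (M N R S R0 : ℕ) (P : Finset (ℕ × ℕ))
    (f g : ℕ → ℂ), x0 ≤ x → Tau (x ^ (30 : ℝ)) T → 1 ≤ z → z ≤ x → NMB.BlkM ν θ δ ε ε x M N R S →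
  PrD μ κ l x a ρ R S R0 P → SL.Pr a R S z P → (∀ m, ‖f m‖ ≤ 1) → (∀ n, ‖g n‖ ≤ 1) →
  ∑ w' ∈ P, ‖∑ m ∈ Ioc M (2 * M), ∑ n ∈ Ioc N (2 * N), f m * g n * Dl (a w'.1 w'.2) w'.1 w'.2 (m * n)‖ ≤ Bd C A0 η x T z

/-- one modulus q = r (q/r), ρ ∣ r, ρ has a divisor m ≤ x^μ -/
def DqD (μ κ l δ ε x z : ℝ) (N : ℕ) (a : ℤ) (q r ρ : ℕ) : Prop :=
  (Squarefree q ∧ Int.gcd a q = 1 ∧ (q : ℝ) ≤ x ^ (1 / 2 + δ) ∧ x ^ (1 / 2 - ε / 2) < (q : ℝ)) ∧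
  (r ∣ q ∧ (r : ℝ) ≤ N * x ^ (-(10 * ε)) ∧ (N : ℝ) * x ^ (-(10 * ε)) < r * x ^ ε ∧ ∀ p : ℕ, p.Prime → p ∣ q / r → z < p) ∧
  (ρ ∣ r ∧ x ^ l < (ρ : ℝ) ∧ (ρ : ℝ) ≤ x ^ (l + κ)) ∧
  (∃ m : ℕ, m ∣ ρ ∧ (m : ℝ) ≤ x ^ μ ∧ ∀ p : ℕ, p.Prime → p ∣ ρ / m → (p : ℝ) ≤ x ^ κ) ∧
  (∀ p : ℕ, p.Prime → p ∣ q / r → (p : ℝ) ≤ x ^ κ) ∧
  ∀ p : ℕ, p.Prime → p ∣ r / ρ → (p : ℝ) ≤ x ^ κ

/-- Module BdrD (theorem tBdrD; all blocks). Uses: BbbDStmt. MODEL: Lib/NMB/BdrM.lean. -/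
def BdrDStmt : Prop := ∀ μ κ ν θ l w δ ε : ℝ, ParD μ κ ν θ l w δ ε → BiDStmt μ κ ν θ l w δ ε →
  ∃ (η C x0 : ℝ) (A0 : ℕ), 0 < η ∧ 0 ≤ C ∧
  ∀ (x T z : ℝ) (a : ℕ → ℤ) (M N : ℕ) (f g : ℕ → ℂ) (F : Finset ℕ) (r ρ : ℕ → ℕ), x0 ≤ x →
  Tau (x ^ (30 : ℝ)) T → 1 ≤ z → z ≤ x → x ^ (ν - ε) ≤ N → (N : ℝ) ≤ x ^ (θ + ε) →
  x ^ (1 - ε) ≤ (M : ℝ) * N → (M : ℝ) * N ≤ x → (∀ m, ‖f m‖ ≤ 1) → (∀ n, ‖g n‖ ≤ 1) →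
  (∀ q ∈ F, DqD μ κ l δ ε x z N (a q) q (r q) (ρ q)) → (∀ q ∈ F, ∀ q' ∈ F, r q = r q' → ρ q = ρ q') →
  ∑ q ∈ F, ‖∑ m ∈ Ioc M (2 * M), ∑ n ∈ Ioc N (2 * N), f m * g n * Dl (a q) (r q) (q / r q) (m * n)‖ ≤ Bd C A0 η x T z

/-- Module BdsD (theorem tBdsD; ρ becomes a function of r). Uses: BdrDStmt, MK.FspStmt. MODEL: Lib/NMB/BdsM.lean. -/
def BdsDStmt : Prop := ∀ μ κ ν θ l w δ ε : ℝ, ParD μ κ ν θ l w δ ε → BiDStmt μ κ ν θ l w δ ε →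
  ∃ (η C x0 : ℝ) (A0 : ℕ), 0 < η ∧ 0 ≤ C ∧
  ∀ (x T z : ℝ) (a : ℕ → ℤ) (M N : ℕ) (f g : ℕ → ℂ) (F : Finset ℕ) (r ρ : ℕ → ℕ), x0 ≤ x →
  Tau (x ^ (30 : ℝ)) T → 1 ≤ z → z ≤ x → x ^ (ν - ε) ≤ N → (N : ℝ) ≤ x ^ (θ + ε) →
  x ^ (1 - ε) ≤ (M : ℝ) * N → (M : ℝ) * N ≤ x → (∀ m, ‖f m‖ ≤ 1) → (∀ n, ‖g n‖ ≤ 1) →
  (∀ q ∈ F, DqD μ κ l δ ε x z N (a q) q (r q) (ρ q)) →
  ∑ q ∈ F, ‖∑ m ∈ Ioc M (2 * M), ∑ n ∈ Ioc N (2 * N), f m * g n * Dl (a q) (r q) (q / r q) (m * n)‖ ≤ Bd C A0 η x T z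

/-- q ≤ x^(1/2-δ), or q has a divisor m ≤ x^μ such that the primes of q/m are ≤ x^κ and for every Z ≥ m in
[x^(1/6+e), x^(2/5-e)] some divisor v of q/m has m v ≤ Z < m v x^δ -/
def Dn (μ κ e δ : ℝ) : ℝ → ℕ → Prop := fun x q => x ^ (1 / 2 - δ) < (q : ℝ) → ∃ m : ℕ, m ∣ q ∧ (m : ℝ) ≤ x ^ μ ∧
  (∀ p : ℕ, p.Prime → p ∣ q / m → (p : ℝ) ≤ x ^ κ) ∧
  ∀ Z : ℝ, (m : ℝ) ≤ Z → x ^ (1 / 6 + e) ≤ Z → Z ≤ x ^ (2 / 5 - e) →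
    ∃ v : ℕ, v ∣ q / m ∧ (m : ℝ) * v ≤ Z ∧ Z < (m : ℝ) * v * x ^ δ

/-- Module BfiD (theorem tBfiD; THE BILINEAR THEOREM). Uses: BdsDStmt, NLB.BorNStmt, NMB.BgeMStmt. MODEL: Lib/NMB/BfiM.lean.
Proof. N ≤ M as in the MODEL. For q ∈ F, q > x^(1/2-ε/2): m from Dn. Z := N x^(-10ε-ε/16): x^(1/6+w/2) ≤ x^(ν-12ε) ≤ Z ≤ x^θ ≤ x^(2/5-w/2), m ≤ x^μ ≤ Z. v from Dn, t = t q ≤ x^(ε/16). r = lcm (m v) t divides q, r ≤ m v t ≤ N x^(-10ε), r ≥ m v > Z x^(-ε/2), so N x^(-10ε) < r x^(ε/16+ε/2) ≤ r x^ε; r > x^(ν-12ε) ≥ x^l, r ≤ x^(θ-9ε) ≤ x^(1/2-ε/2) < q.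
t ∣ r, so the primes of q/r divide q/t and are > z; they divide q/m, so they are ≤ x^κ. BorN with q := r, c := m, Z := x^(l+κ), y := x^κ (the primes of r/m divide q/m): m ∣ ρ ∣ r, ρ ≤ x^(l+κ), and ρ = r > x^l or x^(l+κ) < ρ x^κ, so x^l < ρ. The primes of ρ/m and of r/ρ divide q/m (squarefree). u q = r/t q. BgeM, BdsD as in the MODEL. -/
def BfiDStmt : Prop := ∀ μ κ ν θ l w δ ε : ℝ, ParD μ κ ν θ l w δ ε → 1 / 6 + w ≤ ν → θ ≤ 2 / 5 - w →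
  BiDStmt μ κ ν θ l w δ ε → NLA.BlN (NLF.Hq (Dn μ κ (w / 2) (ε / 2))) (1 / 2 + δ) (ε / 16) ν θ ε

/-- Module EndD (theorem tEndD; helper28). Uses: NMA.MfiStmt, BfiDStmt, BinDStmt. -/
def EndDStmt : Prop := ∀ μ κ : ℝ, 0 ≤ μ → 0 ≤ κ → 5 * μ + 12 * κ < 1 → ∃ e ε : ℝ, 0 < e ∧ 0 < ε ∧ 1000 * ε ≤ e ∧
  e ≤ 1 / 100 ∧ SLA.CoreStmt (NLF.Hq (Dn μ κ e (ε / 2))) (1 / 2 + ε) (ε / 16)

end Pool.Agent.Lib.ND
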